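import Pool.Agent.RotaP.Defs

/-!
# Rota's basis conjecture for high girth: closures in a rank function

`RkF E` (Pool.Agent.RotaP.Defs) is a matroid rank function on finite subsets.  `Gir R n k`: rank at most `n`, every set with at
most `n - k` elements is independent.
-/

set_option autoImplicit false

namespace Pool.Agent.RGi

open Finset Pool.Agent.RotaP

variable {E : Type*} [Fintype E] [DecidableEq E]

/-- the closure of `X` -/
def cl (R : RkF E) (X : Finset E) : Finset E := univ.filter (fun e => R.r (insert e X) = R.r X)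

theorem mem_cl {R : RkF E} {X : Finset E} {e : E} : e ∈ cl R X ↔ R.r (insert e X) = R.r X := by
  simp [cl]

/-- [b1] -/
theorem subset_cl (R : RkF E) (X : Finset E) : X ⊆ cl R X := by
  intro e he
  exact mem_cl.2 (by rw [insert_eq_of_mem he])

/-- [b1] submodularity of `insert e X` and `Y`. -/
theorem cl_mono (R : RkF E) {X Y : Finset E} (h : X ⊆ Y) : cl R X ⊆ cl R Y := by
  intro e he
  rw [mem_cl] at he ⊢
  have h1 := R.r_sub (insert e X) Y
  have e1 : insert e X ∪ Y = insert e Y := by
    rw [insert_union, union_eq_right.2 h]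
  have h2 : R.r X ≤ R.r (insert e X ∩ Y) := R.r_mono (subset_inter (subset_insert _ _) h)
  have h3 : R.r Y ≤ R.r (insert e Y) := R.r_mono (subset_insert _ _)
  rw [e1] at h1
  omega

/-- [b1] induction on `Y`. -/
theorem r_union_cl (R : RkF E) {X Y : Finset E} (h : Y ⊆ cl R X) : R.r (X ∪ Y) = R.r X := by
  induction Y using Finset.induction_on with
  | empty => simp
  | insert y Y hy ih =>
    rw [insert_subset_iff] at h
    rw [union_insert, mem_cl.1 (cl_mono R subset_union_left h.1), ih h.2]

/-- [b1] -/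
theorem r_cl (R : RkF E) (X : Finset E) : R.r (cl R X) = R.r X := by
  have h := r_union_cl R (X := X) (Y := cl R X) (Subset.refl _)
  rwa [union_eq_right.2 (subset_cl R X)] at h

/-- [b1] -/
theorem r_insert_notMem (R : RkF E) {X : Finset E} {e : E} (h : e ∉ cl R X) :
    R.r (insert e X) = R.r X + 1 := by
  rw [mem_cl] at h
  have h1 := R.r_insert e X
  have h2 : R.r X ≤ R.r (insert e X) := R.r_mono (subset_insert _ _)
  omega

/-- [b1] -/
theorem cl_eq (R : RkF E) {X Y : Finset E} (h : X ⊆ Y) (hr : R.r Y = R.r X) : cl R X = cl R Y := by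
  apply Subset.antisymm (cl_mono R h)
  intro e he
  rw [mem_cl] at he ⊢
  have h1 : R.r (insert e X) ≤ R.r (insert e Y) := R.r_mono (insert_subset_insert _ h)
  have h2 : R.r X ≤ R.r (insert e X) := R.r_mono (subset_insert _ _)
  omega

/-- [b1] -/
theorem cl_cl (R : RkF E) (X : Finset E) : cl R (cl R X) = cl R X := by
  exact (cl_eq R (subset_cl R X) (r_cl R X)).symm

/-- [b2] For an independent set `Z` the closures of the `Z - m`, `m ∈ D`, intersect in `cl (Z \ D)` (elements outside `Z`).
Proof: induction on `D`.  Let `b ∈ cl (Z \ D')` and `b ∈ cl (Z - m)`, `m ∉ D'`; submodularity of `X = insert b (Z \ D')` (rank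
`|Z \ D'|`) and `Y = insert b (Z.erase m)` (rank `|Z| - 1`): `X ∪ Y = insert b Z` has rank `|Z|`, `X ∩ Y = insert b (Z \ (insert m D'))`. -/
theorem cl_inter (R : RkF E) (Z D : Finset E) (hZ : R.r Z = Z.card) (hD : D ⊆ Z) (b : E) (hb : b ∉ Z)
    (hcl : b ∈ cl R Z) (h : ∀ m ∈ D, b ∈ cl R (Z.erase m)) : b ∈ cl R (Z \ D) := by
  induction D using Finset.induction_on with
  | empty => rwa [sdiff_empty]
  | insert m D hm ih =>
    rw [insert_subset_iff] at hD
    have h1 : b ∈ cl R (Z \ D) := ih hD.2 (fun x hx => h x (mem_insert_of_mem hx))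
    have h2 : b ∈ cl R (Z.erase m) := h m (mem_insert_self _ _)
    rw [mem_cl] at h1 h2 ⊢
    have h3 := R.r_sub (insert b (Z \ D)) (insert b (Z.erase m))
    have e1 : insert b (Z \ D) ∪ insert b (Z.erase m) = insert b Z := by
      ext x
      simp only [mem_union, mem_insert, mem_sdiff, mem_erase]
      by_cases hxm : x = m
      · subst hxm; tauto
      · tauto
    have e2 : insert b (Z \ D) ∩ insert b (Z.erase m) = insert b (Z \ insert m D) := by
      ext x
      simp only [mem_inter, mem_insert, mem_sdiff, mem_erase]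
      tauto
    rw [e1, e2, h1, h2, R.indep_sub hZ (sdiff_subset), R.indep_sub hZ (erase_subset _ _)] at h3
    have h4 : R.r Z ≤ R.r (insert b Z) := R.r_mono (subset_insert _ _)
    have h5 : R.r (Z \ insert m D) = (Z \ insert m D).card := R.indep_sub hZ sdiff_subset
    have h6 : R.r (Z \ insert m D) ≤ R.r (insert b (Z \ insert m D)) := R.r_mono (subset_insert _ _)
    have c1 := card_sdiff_add_card_eq_card hD.2
    have c2 := card_sdiff_add_card_eq_card (insert_subset_iff.2 hD)
    rw [card_insert_of_notMem hm] at c2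
    have c3 := card_erase_add_one hD.1
    omega

/-- rank at most `n`, every set with at most `n - k` elements is independent -/
structure Gir (R : RkF E) (n k : ℕ) : Prop where
  le : ∀ S, R.r S ≤ n
  ind : ∀ X : Finset E, X.card + k ≤ n → R.r X = X.card

/-- [b3] (F1) take a subset with `n - k` elements. -/
theorem Gir.one {R : RkF E} {n k : ℕ} (h : Gir R n k) (X : Finset E) (hX : n ≤ X.card + k) :
    n ≤ R.r X + k := by
  rcases le_total n k with hnk | hnk
  · omega
  obtain ⟨Y, hYX, hY⟩ := exists_subset_card_eq (show n - k ≤ X.card by omega)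
  have h1 := h.ind Y (by omega)
  have h2 := R.r_mono hYX
  omega

/-- [b3] (F2).  Proof: if `b ∉ cl Z` the set is empty.  Otherwise let `D` be the set; by `cl_inter` `b ∈ cl (Z \ D)`, so
`insert b (Z \ D)` is not independent, `|Z \ D| + 1 + k > n ≥ |Z|`. -/
theorem Gir.two {R : RkF E} {n k : ℕ} (h : Gir R n k) (Z : Finset E) (hZ : R.r Z = Z.card)
    (hc : Z.card ≤ n) (b : E) (hb : b ∉ Z) :
    (Z.filter (fun m => b ∈ cl R (Z.erase m))).card ≤ k := by
  set D := Z.filter (fun m => b ∈ cl R (Z.erase m)) with hD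
  by_cases hcl : b ∈ cl R Z
  · have h1 : b ∈ cl R (Z \ D) :=
      cl_inter R Z D hZ (filter_subset _ _) b hb hcl (fun m hm => (mem_filter.1 hm).2)
    rw [mem_cl] at h1
    have hbn : b ∉ Z \ D := fun hx => hb (mem_sdiff.1 hx).1
    have h3 := R.r_le_card (Z \ D)
    have h4 := card_sdiff_add_card_eq_card (show D ⊆ Z from filter_subset _ _)
    by_contra hk
    push Not at hk
    have h5 := h.ind (insert b (Z \ D)) (by rw [card_insert_of_notMem hbn]; omega)
    rw [card_insert_of_notMem hbn] at h5
    omega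
  · have : D = ∅ := by
      rw [hD, filter_eq_empty_iff]
      intro m _ hm
      exact hcl (cl_mono R (erase_subset _ _) hm)
    rw [this]; simp

/-- [b4] (F3).  Proof: the set `C` of coloops of `Z`: `r (Z \ C) = r Z - |C|` (a coloop of `Z` is a coloop of every subset containing it,
by submodularity; induction), so `Z \ C` is dependent, `|Z \ C| + k > n ≥ |Z|`. -/
theorem Gir.three {R : RkF E} {n k : ℕ} (h : Gir R n k) (Z : Finset E) (hZ : R.r Z < Z.card)
    (hc : Z.card ≤ n) : (Z.filter (fun m => R.r (Z.erase m) < R.r Z)).card + 1 ≤ k := by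
  have key : ∀ C : Finset E, C ⊆ Z.filter (fun m => R.r (Z.erase m) < R.r Z) →
      R.r (Z \ C) + C.card ≤ R.r Z := by
    intro C
    induction C using Finset.induction_on with
    | empty => intro _; simp
    | insert m C hm ih =>
      intro hC
      rw [insert_subset_iff] at hC
      have h1 := ih hC.2
      obtain ⟨hmZ, h2⟩ := mem_filter.1 hC.1
      have h3 := R.r_sub (Z \ C) (Z.erase m)
      have e1 : (Z \ C) ∪ Z.erase m = Z := by
        ext x
        simp only [mem_union, mem_sdiff, mem_erase]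
        by_cases hxm : x = m
        · subst hxm; tauto
        · tauto
      have e2 : (Z \ C) ∩ Z.erase m = Z \ insert m C := by
        ext x
        simp only [mem_inter, mem_sdiff, mem_erase, mem_insert]
        tauto
      rw [e1, e2] at h3
      rw [card_insert_of_notMem hm]
      omega
  set C := Z.filter (fun m => R.r (Z.erase m) < R.r Z) with hC
  have h1 := key C (Subset.refl _)
  have h2 := card_sdiff_add_card_eq_card (show C ⊆ Z from filter_subset _ _)
  by_contra hk
  push Not at hk
  have h3 := h.ind (Z \ C) (by omega)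
  omega

/-- [b5] Symmetric exchange.  Proof: let `C` be the set of the `b ∈ B` with `a ∉ cl (B - b)`.  By `cl_inter` (`Z = B`, `D = B \ C`),
`a ∈ cl C` (`a ∈ cl B` since `B` has rank `t`).  If `C ⊆ cl (A - a)` then `a ∈ cl (A - a)`, contradiction.  Take `b ∈ C`, `b ∉ cl (A - a)`. -/
theorem sym_exch (R : RkF E) (t : ℕ) (hle : ∀ S, R.r S ≤ t) (A B : Finset E) (hA : A.card = t)
    (hA' : R.r A = t) (hB : B.card = t) (hB' : R.r B = t) (a : E) (ha : a ∈ A) (haB : a ∉ B) :
    ∃ b ∈ B, b ∉ A ∧ R.r (insert b (A.erase a)) = t ∧ R.r (insert a (B.erase b)) = t := by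
  have hAi : R.r A = A.card := by rw [hA, hA']
  have hBi : R.r B = B.card := by rw [hB, hB']
  have ha1 : R.r (A.erase a) + 1 = t := by
    rw [R.indep_sub hAi (erase_subset _ _), card_erase_add_one ha, hA]
  have haB' : a ∈ cl R B := by
    rw [mem_cl]
    have h1 := hle (insert a B)
    have h2 : R.r B ≤ R.r (insert a B) := R.r_mono (subset_insert _ _)
    omega
  have hin : a ∈ cl R (B \ B.filter (fun m => a ∈ cl R (B.erase m))) :=
    cl_inter R B _ hBi (filter_subset _ _) a haB haB' (fun m hm => (mem_filter.1 hm).2)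
  have hex : ∃ b ∈ B, a ∉ cl R (B.erase b) ∧ b ∉ cl R (A.erase a) := by
    by_contra hno
    push Not at hno
    have hsub : B \ B.filter (fun m => a ∈ cl R (B.erase m)) ⊆ cl R (A.erase a) := by
      intro b hb
      rw [mem_sdiff, mem_filter] at hb
      exact hno b hb.1 (fun hx => hb.2 ⟨hb.1, hx⟩)
    have h1 := cl_mono R hsub hin
    rw [cl_cl, mem_cl, insert_erase ha] at h1
    omega
  obtain ⟨b, hb, h1, h2⟩ := hex
  refine ⟨b, hb, ?_, ?_, ?_⟩
  · intro hbA
    apply h2
    apply subset_cl
    rw [mem_erase]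
    exact ⟨fun hba => haB (hba ▸ hb), hbA⟩
  · rw [r_insert_notMem R h2, ha1]
  · rw [r_insert_notMem R h1, R.indep_sub hBi (erase_subset _ _), card_erase_add_one hb, hB]

/-- [b6] Proof: induction on `m`: if `D ⊆ B`, `|D| = m`, `r (D ∪ F) = r F + m < r (B ∪ F)` there is `b ∈ B` outside
`cl (D ∪ F)` (else `r (B ∪ F) = r (D ∪ F)`), and `b ∉ D`. -/
theorem exists_ext (R : RkF E) (B F : Finset E) (m : ℕ) (hm : R.r F + m ≤ R.r (B ∪ F)) :
    ∃ D ⊆ B, D.card = m ∧ R.r (D ∪ F) = R.r F + m := by
  induction m with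
  | zero => exact ⟨∅, empty_subset _, card_empty, by simp⟩
  | succ m ih =>
    obtain ⟨D, hD, hc, hr⟩ := ih (by omega)
    have hex : ∃ b ∈ B, b ∉ cl R (D ∪ F) := by
      by_contra hno
      push Not at hno
      have h1 := r_union_cl R (X := D ∪ F) (Y := B) hno
      have h2 : R.r (B ∪ F) ≤ R.r (D ∪ F ∪ B) := by
        apply R.r_mono
        intro x
        simp only [mem_union]
        tauto
      omega
    obtain ⟨b, hb, hbn⟩ := hex
    have hbD : b ∉ D := fun hx => hbn (subset_cl R _ (mem_union_left _ hx))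
    refine ⟨insert b D, insert_subset_iff.2 ⟨hb, hD⟩, ?_, ?_⟩
    · rw [card_insert_of_notMem hbD, hc]
    · rw [insert_union, r_insert_notMem R hbn, hr, add_assoc]

/-- the rank function pulled back along `f` -/
def pull {E' : Type*} [DecidableEq E'] (R : RkF E) (f : E' → E) : RkF E' where
  r S := R.r (S.image f)
  r_empty := by simp [R.r_empty]
  r_mono := fun h => R.r_mono (Finset.image_subset_image h)
  r_insert := by
    intro x S
    rw [Finset.image_insert]
    exact R.r_insert _ _
  r_sub := by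
    intro S T
    have h1 := R.r_sub (S.image f) (T.image f)
    have h2 : R.r ((S ∩ T).image f) ≤ R.r (S.image f ∩ T.image f) :=
      R.r_mono (Finset.image_inter_subset f S T)
    rw [Finset.image_union]
    omega

omit [Fintype E] in
theorem pull_r {E' : Type*} [DecidableEq E'] (R : RkF E) (f : E' → E) (S : Finset E') :
    (pull R f).r S = R.r (S.image f) := rfl

/-- [b6] for a bijection `f` closures correspond. -/
theorem cl_pull {E' : Type*} [Fintype E'] [DecidableEq E'] (R : RkF E) (f : E' ≃ E) (X : Finset E') (e : E') :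
    e ∈ cl (pull R f) X ↔ f e ∈ cl R (X.image f) := by
  rw [mem_cl, mem_cl, pull_r, pull_r, image_insert]

/-- [h1] HEAVY FLATS.  Proof: among the `F` with `cl R F = F`, `2 (k+1) |Fᶜ| ≤ (n - r F) n²`, `n ≤ r F + (k+1)` (`univ` is one) take one
with minimal rank, `t = n - r F ≤ k + 1`.  Then `2 |Fᶜ| ≤ n²`, `|F| ≥ n²/2 ≥ n - k`, so `n ≤ r F + k`.  Suppose `r X < n`, `r (X ∪ F) = n`,
`2 (k+1) |(cl X)ᶜ| ≤ n²`.  `G = F ∩ cl X` is a flat; `r G < r F`: otherwise `G = cl G = cl F = F` (`cl_eq`), `F ⊆ cl X` and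
`r (X ∪ F) = r X < n`.  `2 (k+1) |Gᶜ| ≤ (t+1) n² ≤ (n - r G) n²`, and as `t + 1 ≤ k + 1`: `2 |Gᶜ| ≤ n²`, so `n ≤ r G + k`: contradiction
to the minimality. -/
theorem exists_F0 (R : RkF E) (n k : ℕ) (hg : Gir R n k) (hfull : R.r univ = n)
    (hcard : Fintype.card E = n * n) (hn : 2 ≤ n) :
    ∃ F0 : Finset E, n ≤ R.r F0 + k ∧
      ∀ X : Finset E, R.r X < n → R.r (X ∪ F0) = n → n * n < 2 * (k + 1) * (univ \ cl R X).card := by
  classical
  let P : Finset E → Prop := fun F => cl R F = F ∧
    2 * (k + 1) * (univ \ F).card ≤ (n - R.r F) * (n * n) ∧ n ≤ R.r F + (k + 1)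
  have hP : P univ := by
    refine ⟨?_, ?_, ?_⟩
    · exact Finset.Subset.antisymm (Finset.subset_univ _) (subset_cl R univ)
    · simp
    · rw [hfull]; omega
  obtain ⟨F, hF', hm⟩ := (Finset.univ.filter P).exists_min_image R.r
    ⟨univ, Finset.mem_filter.mpr ⟨Finset.mem_univ _, hP⟩⟩
  have hF : P F := (Finset.mem_filter.mp hF').2
  have hmin : ∀ G, P G → R.r F ≤ R.r G := fun G hG => hm G (Finset.mem_filter.mpr ⟨Finset.mem_univ _, hG⟩)
  have half : ∀ G : Finset E, 2 * (k + 1) * (univ \ G).card ≤ (k + 1) * (n * n) → n ≤ R.r G + k := by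
    intro G hG
    apply hg.one
    have h1 : 2 * (univ \ G).card ≤ n * n := by
      have : (k + 1) * (2 * (univ \ G).card) ≤ (k + 1) * (n * n) := by
        calc (k + 1) * (2 * (univ \ G).card) = 2 * (k + 1) * (univ \ G).card := by ring
          _ ≤ _ := hG
      exact Nat.le_of_mul_le_mul_left this (Nat.succ_pos k)
    have h2 : (univ \ G).card + G.card = n * n := by
      rw [← hcard, ← Finset.card_univ]
      exact Finset.card_sdiff_add_card_eq_card (Finset.subset_univ G)
    have h3 : 2 * n ≤ n * n := Nat.mul_le_mul_right n hn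
    omega
  obtain ⟨hF1, hF2, hF3⟩ := hF
  have hrF : R.r F ≤ n := hg.le F
  have hFk : n ≤ R.r F + k := by
    apply half
    refine hF2.trans ?_
    exact Nat.mul_le_mul_right _ (by omega)
  refine ⟨F, hFk, ?_⟩
  intro X hX hXF
  by_contra hcon
  push Not at hcon
  -- the flat F ∩ cl X
  have hGflat : cl R (F ∩ cl R X) = F ∩ cl R X := by
    apply Finset.Subset.antisymm _ (subset_cl R _)
    intro e he
    rw [Finset.mem_inter]
    refine ⟨?_, ?_⟩
    · rw [← hF1]; exact cl_mono R Finset.inter_subset_left he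
    · rw [← cl_cl R X]; exact cl_mono R Finset.inter_subset_right he
  have hGr : R.r (F ∩ cl R X) < R.r F := by
    rcases Nat.lt_or_ge (R.r (F ∩ cl R X)) (R.r F) with h | h
    · exact h
    · exfalso
      have h1 : R.r F = R.r (F ∩ cl R X) := le_antisymm h (R.r_mono Finset.inter_subset_left)
      have h2 := cl_eq R (X := F ∩ cl R X) (Y := F) Finset.inter_subset_left h1
      rw [hGflat, hF1] at h2
      have h3 : F ⊆ cl R X := by
        rw [← h2]; exact Finset.inter_subset_right
      have h4 := r_union_cl R h3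
      omega
  have hcardG : (univ \ (F ∩ cl R X)).card ≤ (univ \ F).card + (univ \ cl R X).card := by
    refine (Finset.card_le_card ?_).trans (Finset.card_union_le _ _)
    intro e he
    simp only [Finset.mem_sdiff, Finset.mem_univ, true_and, Finset.mem_inter, Finset.mem_union] at he ⊢
    tauto
  have hG2 : 2 * (k + 1) * (univ \ (F ∩ cl R X)).card ≤ (n - R.r F + 1) * (n * n) := by
    calc 2 * (k + 1) * (univ \ (F ∩ cl R X)).card
        ≤ 2 * (k + 1) * ((univ \ F).card + (univ \ cl R X).card) := Nat.mul_le_mul_left _ hcardG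
      _ = 2 * (k + 1) * (univ \ F).card + 2 * (k + 1) * (univ \ cl R X).card := by ring
      _ ≤ (n - R.r F) * (n * n) + n * n := Nat.add_le_add hF2 hcon
      _ = _ := by ring
  have hGk : n ≤ R.r (F ∩ cl R X) + k := by
    apply half
    exact hG2.trans (Nat.mul_le_mul_right _ (by omega))
  have hPG : P (F ∩ cl R X) := by
    refine ⟨hGflat, ?_, by omega⟩
    exact hG2.trans (Nat.mul_le_mul_right _ (by omega))
  have := hmin _ hPG
  omega

end Pool.Agent.RGi
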