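import Pool.Agent.RGi.Base

set_option autoImplicit false

namespace Pool.Agent.RGi

open Finset Pool.Agent.RotaP

variable {E : Type*} [Fintype E] [DecidableEq E]

/-- the ordered pairs of `D` in the same column and the same row -/
def badP {n : ℕ} (row : E → Fin n) (D : Finset E) (col : E → Fin n) : Finset (E × E) :=
  (D ×ˢ D).filter (fun p => p.1 ≠ p.2 ∧ col p.1 = col p.2 ∧ row p.1 = row p.2)

/-- [c1] One exchange, given the column `c'` and `b`.  `col' = ` `col` with `a ↦ c'`, `b ↦ col a`.  The classes of `col'`: column `col a` is
`insert b (K.erase a)`, column `c'` is `insert a (K'.erase b)`.  A pair which is bad for `col'` is bad for `col` and different from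
`(a, a')` (pairs with `a`: no element of `K'` is in the row of `a`; pairs with `b`: no element of `K - a` is in the row of `b`), so
`badP` gets strictly smaller. -/
theorem core_swap (N : RkF E) (n t : ℕ) (row : E → Fin n) (D : Finset E) (col : E → Fin n)
    (hcol : ∀ c, (D.filter (fun e => col e = c)).card = t ∧ N.r (D.filter (fun e => col e = c)) = t)
    (a a' b : E) (ha : a ∈ D) (ha' : a' ∈ D) (hb : b ∈ D) (hne : a ≠ a') (hcc : col a = col a')
    (hrr : row a = row a') (hbc : col b ≠ col a)
    (h1 : ∀ d ∈ D, col d = col b → row d ≠ row a)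
    (h2 : ∀ d ∈ D, col d = col a → d ≠ a → row d ≠ row b)
    (h3 : N.r (insert b ((D.filter (fun e => col e = col a)).erase a)) = t)
    (h4 : N.r (insert a ((D.filter (fun e => col e = col b)).erase b)) = t) :
    ∃ col' : E → Fin n,
      (∀ c, (D.filter (fun e => col' e = c)).card = t ∧ N.r (D.filter (fun e => col' e = c)) = t) ∧
      (badP row D col').card < (badP row D col).card := by
  have hab : a ≠ b := by
    rintro rfl
    exact hbc rfl
  refine ⟨fun e => if e = a then col b else if e = b then col a else col e, ?_, ?_⟩
  · intro c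
    by_cases hca : c = col a
    · subst hca
      have e1 : D.filter (fun e => (if e = a then col b else if e = b then col a else col e) = col a) =
          insert b ((D.filter (fun e => col e = col a)).erase a) := by
        ext x
        simp only [mem_filter, mem_insert, mem_erase]
        by_cases hxa : x = a
        · subst hxa
          simp [hbc, hab]
        · by_cases hxb : x = b
          · subst hxb
            simp [hxa, hb]
          · simp [hxa, hxb]
      rw [e1]
      refine ⟨?_, h3⟩
      rw [card_insert_of_notMem (by simp [hbc]), card_erase_of_mem (by simp [ha]), (hcol _).1]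
      have : 0 < (D.filter (fun e => col e = col a)).card := card_pos.mpr ⟨a, by simp [ha]⟩
      rw [(hcol _).1] at this
      omega
    · by_cases hcb : c = col b
      · subst hcb
        have e1 : D.filter (fun e => (if e = a then col b else if e = b then col a else col e) = col b) =
            insert a ((D.filter (fun e => col e = col b)).erase b) := by
          ext x
          simp only [mem_filter, mem_insert, mem_erase]
          by_cases hxa : x = a
          · subst hxa
            simp [ha]
          · by_cases hxb : x = b
            · subst hxb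
              simp [hxa, Ne.symm hbc]
            · simp [hxa, hxb]
        rw [e1]
        refine ⟨?_, h4⟩
        rw [card_insert_of_notMem (by simp [Ne.symm hbc]), card_erase_of_mem (by simp [hb]), (hcol _).1]
        have : 0 < (D.filter (fun e => col e = col b)).card := card_pos.mpr ⟨b, by simp [hb]⟩
        rw [(hcol _).1] at this
        omega
      · have e1 : D.filter (fun e => (if e = a then col b else if e = b then col a else col e) = c) =
            D.filter (fun e => col e = c) := by
          apply filter_congr
          intro x _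
          by_cases hxa : x = a
          · subst hxa
            simp [Ne.symm hcb, Ne.symm hca]
          · by_cases hxb : x = b
            · subst hxb
              simp [hxa, Ne.symm hcb, Ne.symm hca]
            · simp [hxa, hxb]
        rw [e1]
        exact hcol c
  · have hmem : (a, a') ∈ badP row D col := by
      simp [badP, ha, ha', hne, hcc, hrr]
    have hsub : badP row D (fun e => if e = a then col b else if e = b then col a else col e) ⊆
        (badP row D col).erase (a, a') := by
      rintro ⟨x, y⟩ hp
      simp only [badP, mem_filter, mem_product] at hp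
      obtain ⟨⟨hx, hy⟩, hxy, hc, hr⟩ := hp
      simp only [mem_erase, badP, mem_filter, mem_product, Prod.mk.injEq, ne_eq]
      by_cases hxa : x = a
      · exfalso
        subst hxa
        rw [if_pos rfl, if_neg (Ne.symm hxy)] at hc
        by_cases hyb : y = b
        · subst hyb
          rw [if_pos rfl] at hc
          exact hbc hc
        · rw [if_neg hyb] at hc
          exact h1 y hy hc.symm hr.symm
      · rw [if_neg hxa] at hc
        by_cases hxb : x = b
        · exfalso
          subst hxb
          rw [if_pos rfl] at hc
          by_cases hya : y = a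
          · subst hya
            rw [if_pos rfl] at hc
            exact hbc hc.symm
          · rw [if_neg hya, if_neg (Ne.symm hxy)] at hc
            exact h2 y hy hc.symm hya hr.symm
        · rw [if_neg hxb] at hc
          by_cases hya : y = a
          · exfalso
            subst hya
            rw [if_pos rfl] at hc
            exact h1 x hx hc hr
          · rw [if_neg hya] at hc
            by_cases hyb : y = b
            · exfalso
              subst hyb
              rw [if_pos rfl] at hc
              exact h2 x hx hc hxa hr
            · rw [if_neg hyb] at hc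
              exact ⟨fun h => hxa h.1, ⟨hx, hy⟩, hxy, hc, hr⟩
    calc _ ≤ ((badP row D col).erase (a, a')).card := card_le_card hsub
      _ < _ := card_erase_lt_of_mem hmem

/-- [c2] One improvement step.  Proof: `c = col a`, `i = row a`, `K = ` column `c`.  Suppose there is no improvement.  For every column `c'`
without element of row `i` (at least `n - (t - 1)` of them: `col` is not injective on the `t` elements of row `i`) `sym_exch` for
`K` and column `c'` (they are disjoint) gives `b(c')` in column `c'` with `h3`, `h4` of `core_swap`; `h1` holds; if `h2` holds we are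
done by `core_swap`, so the row of `b(c')` is the row of an element `d ≠ a` of `K`, and `row b(c') ≠ i` (`h1`).  The rows of the
elements of `K - a` other than `i` are at most `t - 2` (`|K - a| = t - 1` and `a'` has row `i`), each contains `t` elements of `D`, and `b` is
injective (`col b(c') = c'`): `n - (t - 1) ≤ (t - 2) t`, contradiction to `t² ≤ n` (and `t ≥ 2`). -/
theorem core_step (N : RkF E) (n t : ℕ) (ht : t * t ≤ n) (hle : ∀ S, N.r S ≤ t) (row : E → Fin n)
    (D : Finset E) (hD : ∀ i, (D.filter (fun e => row e = i)).card = t) (col : E → Fin n)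
    (hcol : ∀ c, (D.filter (fun e => col e = c)).card = t ∧ N.r (D.filter (fun e => col e = c)) = t)
    (a a' : E) (ha : a ∈ D) (ha' : a' ∈ D) (hne : a ≠ a') (hcc : col a = col a') (hrr : row a = row a') :
    ∃ col' : E → Fin n,
      (∀ c, (D.filter (fun e => col' e = c)).card = t ∧ N.r (D.filter (fun e => col' e = c)) = t) ∧
      (badP row D col').card < (badP row D col).card := by
  classical
  by_contra hno
  have haK : a ∈ D.filter (fun e => col e = col a) := mem_filter.mpr ⟨ha, rfl⟩
  have ha'K : a' ∈ D.filter (fun e => col e = col a) := mem_filter.mpr ⟨ha', hcc.symm⟩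
  have hKc : (D.filter (fun e => col e = col a)).card = t := (hcol (col a)).1
  obtain ⟨K, hK⟩ : ∃ K, K = D.filter (fun e => col e = col a) := ⟨_, rfl⟩
  obtain ⟨C', hC'⟩ : ∃ C' : Finset (Fin n), C' = univ.filter (fun c' => ∀ d ∈ D, col d = c' → row d ≠ row a) :=
    ⟨_, rfl⟩
  have hb : ∀ c' ∈ C', ∃ b, b ∈ D ∧ col b = c' ∧ row b ≠ row a ∧
      ∃ d ∈ D.filter (fun e => col e = col a), d ≠ a ∧ row d = row b := by
    intro c' hc'
    rw [hC'] at hc'
    have hc'1 : ∀ d ∈ D, col d = c' → row d ≠ row a := (mem_filter.mp hc').2
    have hane : a ∉ D.filter (fun e => col e = c') := by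
      intro h
      exact hc'1 a ha (mem_filter.mp h).2 rfl
    obtain ⟨b, hbK', hbK, h3, h4⟩ := sym_exch N t hle (D.filter (fun e => col e = col a))
      (D.filter (fun e => col e = c')) hKc (hcol _).2 (hcol c').1 (hcol c').2 a haK hane
    have hbD := (mem_filter.mp hbK').1
    have hbc : col b = c' := (mem_filter.mp hbK').2
    refine ⟨b, hbD, hbc, hc'1 b hbD hbc, ?_⟩
    by_contra hd
    push Not at hd
    apply hno
    refine core_swap N n t row D col hcol a a' b ha ha' hbD hne hcc hrr ?_ ?_ ?_ h3
      (by rw [hbc]; exact h4)
    · intro h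
      exact hbK (mem_filter.mpr ⟨hbD, h⟩)
    · intro d hd1 hd2
      exact hc'1 d hd1 (hd2.trans hbc)
    · intro d hd1 hd2 hd3
      exact hd d (mem_filter.mpr ⟨hd1, hd2⟩) hd3
  haveI : Nonempty E := ⟨a⟩
  choose! b hb1 hb2 hb3 hb4 using hb
  obtain ⟨R', hR'⟩ : ∃ R' : Finset (Fin n), R' = ((K.erase a).image row).erase (row a) := ⟨_, rfl⟩
  have h1 : row a ∈ (K.erase a).image row := by
    refine mem_image.mpr ⟨a', ?_, hrr.symm⟩
    rw [hK]
    exact mem_erase.mpr ⟨hne.symm, ha'K⟩
  have hKc' : K.card = t := by rw [hK]; exact hKc
  have h2 : R'.card + 2 ≤ t := by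
    have e1 := card_erase_add_one h1
    rw [← hR'] at e1
    have e2 : ((K.erase a).image row).card ≤ (K.erase a).card := card_image_le
    have e3 : (K.erase a).card + 1 = K.card := card_erase_add_one (by rw [hK]; exact haK)
    omega
  have hT : (D.filter (fun d => row d ∈ R')).card ≤ R'.card * t := by
    have e1 : (D.filter (fun d => row d ∈ R')).card = ∑ i ∈ R', ((D.filter (fun d => row d ∈ R')).filter (fun d => row d = i)).card :=
      card_eq_sum_card_fiberwise (fun d hd => (mem_filter.mp hd).2)
    rw [e1]
    calc ∑ i ∈ R', ((D.filter (fun d => row d ∈ R')).filter (fun d => row d = i)).card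
        ≤ ∑ _i ∈ R', t := by
          apply sum_le_sum
          intro i _
          rw [← hD i]
          apply card_le_card
          intro d hd
          rw [mem_filter, mem_filter] at hd
          exact mem_filter.mpr ⟨hd.1.1, hd.2⟩
      _ = R'.card * t := by rw [sum_const, smul_eq_mul]
  have hCT : C'.card ≤ (D.filter (fun d => row d ∈ R')).card := by
    apply card_le_card_of_injOn b
    · intro c' hc'
      have hc'' : c' ∈ C' := hc'
      refine mem_coe.mpr (mem_filter.mpr ⟨hb1 c' hc'', ?_⟩)
      obtain ⟨d, hd1, hd2, hd3⟩ := hb4 c' hc''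
      rw [hR', mem_erase]
      refine ⟨hb3 c' hc'', mem_image.mpr ⟨d, ?_, hd3⟩⟩
      rw [hK]
      exact mem_erase.mpr ⟨hd2, hd1⟩
    · intro c1 h1 c2 h2 h12
      have e1 := hb2 c1 h1
      have e2 := hb2 c2 h2
      rw [← e1, ← e2, h12]
  have hCn : n + 1 ≤ C'.card + t := by
    have e1 : univ \ C' ⊆ ((D.filter (fun e => row e = row a)).erase a).image col := by
      intro c' hc'
      have h3 : c' ∉ C' := (mem_sdiff.mp hc').2
      rw [hC', mem_filter] at h3
      push Not at h3
      obtain ⟨d, hd1, hd2, hd3⟩ := h3 (mem_univ _)
      by_cases hda : d = a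
      · refine mem_image.mpr ⟨a', mem_erase.mpr ⟨hne.symm, mem_filter.mpr ⟨ha', hrr.symm⟩⟩, ?_⟩
        rw [← hcc, ← hda, hd2]
      · exact mem_image.mpr ⟨d, mem_erase.mpr ⟨hda, mem_filter.mpr ⟨hd1, hd3⟩⟩, hd2⟩
    have e2 := (card_le_card e1).trans card_image_le
    have e3 : ((D.filter (fun e => row e = row a)).erase a).card + 1 = (D.filter (fun e => row e = row a)).card :=
      card_erase_add_one (mem_filter.mpr ⟨ha, rfl⟩)
    have e4 := hD (row a)
    have e5 : (univ \ C').card + C'.card = n := by
      have := card_sdiff_add_card_eq_card (subset_univ C')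
      rwa [card_univ, Fintype.card_fin] at this
    omega
  have h5 : n + 1 ≤ R'.card * t + t := by omega
  have h6 : (R'.card + 2) * t ≤ t * t := Nat.mul_le_mul_right t h2
  nlinarith

/-- [c3] Proof: start with `col = row`; among the `col` with all classes bases take one with `badP` minimal; `core_step`. -/
theorem core_partition (N : RkF E) (n t : ℕ) (ht : t * t ≤ n) (hle : ∀ S, N.r S ≤ t) (row : E → Fin n)
    (D : Finset E)
    (hD : ∀ i, (D.filter (fun e => row e = i)).card = t ∧ N.r (D.filter (fun e => row e = i)) = t) :
    ∃ col : E → Fin n,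
      (∀ c, (D.filter (fun e => col e = c)).card = t ∧ N.r (D.filter (fun e => col e = c)) = t) ∧
      ∀ a ∈ D, ∀ b ∈ D, col a = col b → row a = row b → a = b := by
  classical
  have hex : ∃ m, ∃ col : E → Fin n,
      (∀ c, (D.filter (fun e => col e = c)).card = t ∧ N.r (D.filter (fun e => col e = c)) = t) ∧
      (badP row D col).card = m := ⟨_, row, hD, rfl⟩
  obtain ⟨col, hcol, h2⟩ := Nat.find_spec hex
  refine ⟨col, hcol, ?_⟩
  intro a ha b hb hcc hrr
  by_contra hne
  obtain ⟨col', h1', h2'⟩ := core_step N n t ht hle row D (fun i => (hD i).1) col hcol a b ha hb hne hcc hrr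
  have h3 := Nat.find_min' hex ⟨col', h1', rfl⟩
  rw [← h2] at h3
  exact absurd h3 (not_le.mpr h2')

/-- [c4] a partial injection extends to a permutation (e.g. `Equiv.extendSubtype`). -/
theorem ext_perm {α ι : Type*} [Fintype α] [DecidableEq α] (s : Finset ι) (f g : ι → α)
    (hf : Set.InjOn f s) (hg : Set.InjOn g s) : ∃ σ : Equiv.Perm α, ∀ a ∈ s, σ (f a) = g a := by
  classical
  let e : {x // x ∈ f '' (s : Set ι)} ≃ {x // x ∈ g '' (s : Set ι)} :=
    (hf.bijOn_image.equiv f).symm.trans (hg.bijOn_image.equiv g)
  refine ⟨e.extendSubtype, ?_⟩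
  intro a ha
  have hfa : f a ∈ f '' (s : Set ι) := ⟨a, ha, rfl⟩
  rw [Equiv.extendSubtype_apply_of_mem e (f a) hfa]
  have h1 : (hf.bijOn_image.equiv f).symm ⟨f a, hfa⟩ = ⟨a, ha⟩ := by
    rw [Equiv.symm_apply_eq]
    apply Subtype.ext
    rfl
  show ((hg.bijOn_image.equiv g) ((hf.bijOn_image.equiv f).symm ⟨f a, hfa⟩) : α) = g a
  rw [h1]
  rfl

end Pool.Agent.RGi
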