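import Pool.Agent.RGi.Perm

/-!
# A good arrangement exists (section 5 of the text)
-/

set_option autoImplicit false

namespace Pool.Agent.RGi

open Finset Pool.Agent.RotaP

private theorem x1_Ex_sum {ω ι : Type*} (s : Finset ω) (t : Finset ι) (f : ι → ω → ℝ) :
    Ex s (fun w => ∑ i ∈ t, f i w) = ∑ i ∈ t, Ex s (f i) := by
  unfold Ex
  rw [Finset.sum_comm, Finset.sum_div]

private theorem x1_Ex_mono {ω : Type*} (s : Finset ω) (f g : ω → ℝ) (h : ∀ w ∈ s, f w ≤ g w) :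
    Ex s f ≤ Ex s g := by
  unfold Ex
  exact div_le_div_of_nonneg_right (Finset.sum_le_sum h) (Nat.cast_nonneg _)

private theorem x1_Ex_nonneg {ω : Type*} (s : Finset ω) (f : ω → ℝ) (h : ∀ w ∈ s, 0 ≤ f w) :
    0 ≤ Ex s f := by
  unfold Ex
  exact div_nonneg (Finset.sum_nonneg h) (Nat.cast_nonneg _)

private theorem x1_Ex_congr {ω : Type*} (s : Finset ω) (f g : ω → ℝ) (h : ∀ w ∈ s, f w = g w) :
    Ex s f = Ex s g := by
  unfold Ex
  rw [Finset.sum_congr rfl h]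

namespace Cd

variable {n : ℕ} (D : Cd n)

open Classical in
/-- `1` if the column `z`, with the entry of row `j` replaced by `x`, is dependent, otherwise `0` -/
noncomputable def rej (j x : Fin n) (z : Fin n → Fin n) : ℝ :=
  if D.rk (Function.update z j x) < n then 1 else 0

/-- the columns which can hold a free element of row `j` -/
def Gam (j : Fin n) : Finset (Fin n) := univ.filter (fun c => (j, c) ∉ D.Q)

/-- number of columns of the arrangement rejecting the element `(j, x)` -/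
noncomputable def Xb (j x : Fin n) (σ : Fin n → Equiv.Perm (Fin n)) : ℝ :=
  ∑ c ∈ D.Gam j, D.rej j x (colm σ c)

/-- its expectation -/
noncomputable def mu (j x : Fin n) : ℝ := ∑ c ∈ D.Gam j, Ex (D.Om c) (D.rej j x)

/-- [x1] -/
theorem rej_cases (j x : Fin n) (z : Fin n → Fin n) : D.rej j x z = 0 ∨ D.rej j x z = 1 := by
  unfold rej
  split_ifs
  · exact Or.inr rfl
  · exact Or.inl rfl

/-- [x1] -/
theorem card_Gam (j : Fin n) : (D.Gam j).card = D.N := by
  unfold Gam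
  exact D.card_free j

/-- [x1] `ex_col`. -/
theorem ex_Xb (j x : Fin n) : Ex D.Ar (D.Xb j x) = D.mu j x := by
  unfold mu
  have h : D.Xb j x = fun σ => ∑ c ∈ D.Gam j, D.rej j x (colm σ c) := rfl
  rw [h, x1_Ex_sum]
  exact Finset.sum_congr rfl (fun c _ => D.ex_col c _)

private theorem x1_rej_nonneg (j x : Fin n) (z : Fin n → Fin n) : 0 ≤ D.rej j x z := by
  rcases D.rej_cases j x z with h | h <;> rw [h] <;> norm_num

/-- [x1] -/
theorem mu_nonneg (j x : Fin n) : 0 ≤ D.mu j x := by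
  unfold mu
  exact Finset.sum_nonneg (fun c _ => x1_Ex_nonneg _ _ (fun z _ => x1_rej_nonneg D j x z))

private theorem x2_N_ge : (2 : ℝ) ^ 39 ≤ D.N := by
  have h := D.N_big
  have h1 : 1 ≤ (D.k + 1) ^ 3 := Nat.one_le_pow _ _ (by omega)
  have h2 : 2 ^ 39 ≤ D.N := by
    calc 2 ^ 39 = 2 ^ 39 * 1 := by ring
      _ ≤ 2 ^ 39 * (D.k + 1) ^ 3 := Nat.mul_le_mul_left _ h1
      _ ≤ D.N := h
  exact_mod_cast h2

private theorem x2_cov (j x c c' : Fin n) (hcc : c ≠ c') :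
    Ex D.Ar (fun σ => D.rej j x (colm σ c) * D.rej j x (colm σ c')) -
      Ex (D.Om c) (D.rej j x) * Ex (D.Om c') (D.rej j x) ≤
      1 / (2 * ((D.N : ℝ) - 1)) * (Ex (D.Om c) (D.rej j x) + Ex (D.Om c') (D.rej j x)) := by
  have hN := x2_N_ge D
  have h := D.cov_cols hcc (D.rej j x) (D.rej j x)
  have hsq : ∀ z, D.rej j x z ^ 2 = D.rej j x z := by
    intro z
    rcases D.rej_cases j x z with h | h <;> rw [h] <;> norm_num
  have e1 : Ex D.Ar (fun σ => D.rej j x (colm σ c)) = Ex (D.Om c) (D.rej j x) := D.ex_col c _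
  have e2 : Ex D.Ar (fun σ => D.rej j x (colm σ c')) = Ex (D.Om c') (D.rej j x) := D.ex_col c' _
  have e3 : Ex D.Ar (fun σ => D.rej j x (colm σ c) ^ 2) = Ex (D.Om c) (D.rej j x) := by
    rw [← e1]
    exact x1_Ex_congr _ _ _ (fun σ _ => hsq _)
  have e4 : Ex D.Ar (fun σ => D.rej j x (colm σ c') ^ 2) = Ex (D.Om c') (D.rej j x) := by
    rw [← e2]
    exact x1_Ex_congr _ _ _ (fun σ _ => hsq _)
  rw [e1, e2, e3, e4] at h
  have h' := (abs_le.mp h).2
  refine h'.trans ?_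
  apply mul_le_mul_of_nonneg_left _ (by
    apply div_nonneg (by norm_num)
    nlinarith)
  nlinarith [sq_nonneg (Ex (D.Om c) (D.rej j x)), sq_nonneg (Ex (D.Om c') (D.rej j x))]

/-- [x2] The variance of the number of rejecting columns.  Proof: `Var = ∑_c Var + ∑_{c ≠ c'} Cov`; `rej² = rej`, so
`Var rej_c ≤ f_c := Ex (Om c) rej`; `cov_cols`: `|Cov| ≤ (f_c + f_c') / (2 (N-1))`, the sum over the `c' ≠ c` gives `∑_c f_c` again. -/
theorem var_Xb (j x : Fin n) : Ex D.Ar (fun σ => (D.Xb j x σ - D.mu j x) ^ 2) ≤ 2 * D.mu j x := by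
  have hN := x2_N_ge D
  have hpos : (0 : ℝ) < D.Ar.card := by exact_mod_cast D.Ar_pos
  set f : Fin n → ℝ := fun c => Ex (D.Om c) (D.rej j x) with hf
  have hmu : D.mu j x = ∑ c ∈ D.Gam j, f c := rfl
  have hf0 : ∀ c, 0 ≤ f c := fun c => x1_Ex_nonneg _ _ (fun z _ => x1_rej_nonneg D j x z)
  -- expand
  have e1 : Ex D.Ar (fun σ => (D.Xb j x σ - D.mu j x) ^ 2) =
      ∑ c ∈ D.Gam j, ∑ c' ∈ D.Gam j,
        (Ex D.Ar (fun σ => D.rej j x (colm σ c) * D.rej j x (colm σ c')) - f c * f c') := by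
    have s1 : Ex D.Ar (fun σ => (D.Xb j x σ - D.mu j x) ^ 2) =
        Ex D.Ar (fun σ => D.Xb j x σ ^ 2) - D.mu j x ^ 2 := by
      have h1 : Ex D.Ar (D.Xb j x) = D.mu j x := D.ex_Xb j x
      unfold Ex at h1 ⊢
      have h2 : ∑ w ∈ D.Ar, D.Xb j x w = D.mu j x * D.Ar.card := by
        rw [← h1]
        field_simp
      have h3 : ∑ σ ∈ D.Ar, (D.Xb j x σ - D.mu j x) ^ 2 =
          ∑ σ ∈ D.Ar, D.Xb j x σ ^ 2 - D.mu j x ^ 2 * D.Ar.card := by
        have : ∀ σ ∈ D.Ar, (D.Xb j x σ - D.mu j x) ^ 2 =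
            D.Xb j x σ ^ 2 - 2 * D.mu j x * D.Xb j x σ + D.mu j x ^ 2 := by
          intro σ _
          ring
        rw [Finset.sum_congr rfl this, Finset.sum_add_distrib, Finset.sum_sub_distrib,
          ← Finset.mul_sum, h2, Finset.sum_const, nsmul_eq_mul]
        ring
      rw [h3, sub_div]
      congr 1
      field_simp
    rw [s1]
    have s2 : Ex D.Ar (fun σ => D.Xb j x σ ^ 2) =
        ∑ c ∈ D.Gam j, ∑ c' ∈ D.Gam j,
          Ex D.Ar (fun σ => D.rej j x (colm σ c) * D.rej j x (colm σ c')) := by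
      have : (fun σ => D.Xb j x σ ^ 2) = fun σ => ∑ c ∈ D.Gam j, ∑ c' ∈ D.Gam j,
          D.rej j x (colm σ c) * D.rej j x (colm σ c') := by
        funext σ
        unfold Xb
        rw [pow_two, Finset.sum_mul_sum]
      rw [this, x1_Ex_sum]
      exact Finset.sum_congr rfl (fun c _ => x1_Ex_sum _ _ _)
    rw [s2, hmu, pow_two, Finset.sum_mul_sum, ← Finset.sum_sub_distrib]
    exact Finset.sum_congr rfl (fun c _ => (Finset.sum_sub_distrib _ _).symm)
  rw [e1]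
  -- bound the rows
  have hrow : ∀ c ∈ D.Gam j, ∑ c' ∈ D.Gam j,
        (Ex D.Ar (fun σ => D.rej j x (colm σ c) * D.rej j x (colm σ c')) - f c * f c') ≤
      f c + 1 / (2 * ((D.N : ℝ) - 1)) * (((D.N : ℝ) - 1) * f c + (D.mu j x - f c)) := by
    intro c hc
    rw [← Finset.add_sum_erase _ _ hc]
    apply add_le_add
    · have hsq : Ex D.Ar (fun σ => D.rej j x (colm σ c) * D.rej j x (colm σ c)) = f c := by
        rw [hf]
        simp only
        rw [← D.ex_col c (D.rej j x)]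
        apply x1_Ex_congr
        intro σ _
        rcases D.rej_cases j x (colm σ c) with h | h <;> rw [h] <;> norm_num
      rw [hsq]
      nlinarith [mul_self_nonneg (f c)]
    · calc ∑ c' ∈ (D.Gam j).erase c,
          (Ex D.Ar (fun σ => D.rej j x (colm σ c) * D.rej j x (colm σ c')) - f c * f c')
          ≤ ∑ c' ∈ (D.Gam j).erase c, 1 / (2 * ((D.N : ℝ) - 1)) * (f c + f c') := by
            apply Finset.sum_le_sum
            intro c' hc'
            have hne : c ≠ c' := fun h => (Finset.mem_erase.mp hc').1 h.symm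
            exact x2_cov D j x c c' hne
        _ = 1 / (2 * ((D.N : ℝ) - 1)) * (((D.N : ℝ) - 1) * f c + (D.mu j x - f c)) := by
            rw [← Finset.mul_sum, Finset.sum_add_distrib, Finset.sum_const, nsmul_eq_mul,
              Finset.card_erase_of_mem hc, D.card_Gam, Finset.sum_erase_eq_sub hc, hmu]
            congr 2
            have h1 : 1 ≤ D.N := by
              have : (1 : ℝ) ≤ D.N := by
                refine le_trans ?_ hN
                norm_num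
              exact_mod_cast this
            rw [Nat.cast_sub h1]
            norm_num
  refine (Finset.sum_le_sum hrow).trans ?_
  rw [Finset.sum_add_distrib, ← Finset.mul_sum, Finset.sum_add_distrib, Finset.sum_sub_distrib,
    ← Finset.mul_sum, Finset.sum_const, nsmul_eq_mul, D.card_Gam, ← hmu]
  have hne : ((D.N : ℝ) - 1) ≠ 0 := by
    nlinarith
  apply le_of_eq
  field_simp
  ring

private theorem x3_Gam_S {j c : Fin n} (hc : c ∈ D.Gam j) : D.S c j = D.Gam j := by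
  have h : (j, c) ∉ D.Q := by
    unfold Gam at hc
    exact (Finset.mem_filter.mp hc).2
  rw [D.S_free (D.mem_F.mpr h)]
  rfl

/-- [x3] For a column `c` with `(j, c) ∉ Q` the probabilities of rejection of the free elements of row `j` have sum `N π_c`.
Proof: `swap` with `G z x = 1[rk (update z j x) < n]`, `G (update z j x) (z j) = 1[rk z < n]`. -/
theorem sum_rej {j c : Fin n} (hc : c ∈ D.Gam j) :
    ∑ x ∈ D.Gam j, Ex (D.Om c) (D.rej j x) = D.N * ((D.dep c).card / (D.Om c).card : ℝ) := by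
  classical
  have hS := x3_Gam_S D hc
  have h := D.swap c j (fun z x => D.rej j x z)
  have h1 : ∑ x ∈ D.Gam j, Ex (D.Om c) (D.rej j x) =
      (∑ z ∈ D.Om c, ∑ x ∈ D.S c j, D.rej j x z) / (D.Om c).card := by
    rw [← x1_Ex_sum]
    unfold Ex
    rw [hS]
  rw [h1, h]
  have h2 : ∀ z ∈ D.Om c, ∑ x ∈ D.S c j, D.rej j (z j) (Function.update z j x) =
      D.N * (if D.rk z < n then (1 : ℝ) else 0) := by
    intro z _
    have : ∀ x ∈ D.S c j, D.rej j (z j) (Function.update z j x) =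
        if D.rk z < n then (1 : ℝ) else 0 := by
      intro x _
      unfold rej
      rw [Function.update_idem, Function.update_eq_self]
    rw [Finset.sum_congr rfl this, Finset.sum_const, nsmul_eq_mul, hS, D.card_Gam]
  rw [Finset.sum_congr rfl h2, ← Finset.mul_sum, mul_div_assoc]
  congr 2
  unfold dep
  rw [Finset.card_filter]
  push_cast
  rfl

private theorem x3_dep (c : Fin n) :
    2 ^ 16 * ((D.k : ℝ) + 1) * ((D.dep c).card / (D.Om c).card : ℝ) ≤ 1 := by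
  have h := D.card_dep c
  have hpos : (0 : ℝ) < (D.Om c).card := by exact_mod_cast D.Om_pos c
  rw [← mul_div_assoc, div_le_one hpos]
  exact h

/-- [x3] `card_dep`. -/
theorem sum_mu (j : Fin n) : 2 ^ 16 * ((D.k : ℝ) + 1) * ∑ x ∈ D.Gam j, D.mu j x ≤ (D.N : ℝ) ^ 2 := by
  unfold mu
  rw [Finset.sum_comm, Finset.mul_sum]
  have h : ∀ c ∈ D.Gam j, 2 ^ 16 * ((D.k : ℝ) + 1) * ∑ x ∈ D.Gam j, Ex (D.Om c) (D.rej j x) ≤ D.N := by
    intro c hc
    rw [D.sum_rej hc]
    have h1 := x3_dep D c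
    have h2 : (0 : ℝ) ≤ D.N := Nat.cast_nonneg _
    nlinarith
  refine (Finset.sum_le_sum h).trans ?_
  rw [Finset.sum_const, nsmul_eq_mul, D.card_Gam]
  apply le_of_eq
  ring

open Classical in
/-- the free elements of row `j` with large mean -/
noncomputable def V0 (j : Fin n) : Finset (Fin n) := (D.Gam j).filter (fun x => (D.N : ℝ) ≤ 8 * D.mu j x)

/-- [x3] -/
theorem card_V0 (j : Fin n) : 2 ^ 13 * ((D.k : ℝ) + 1) * (D.V0 j).card ≤ D.N := by
  classical
  have hN := x2_N_ge D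
  have h1 : (D.N : ℝ) * (D.V0 j).card ≤ 8 * ∑ x ∈ D.Gam j, D.mu j x := by
    have s1 : (D.N : ℝ) * (D.V0 j).card ≤ ∑ x ∈ D.V0 j, 8 * D.mu j x := by
      have : ∑ x ∈ D.V0 j, (D.N : ℝ) ≤ ∑ x ∈ D.V0 j, 8 * D.mu j x := by
        apply Finset.sum_le_sum
        intro x hx
        unfold V0 at hx
        exact (Finset.mem_filter.mp hx).2
      rw [Finset.sum_const, nsmul_eq_mul] at this
      linarith
    have s2 : ∑ x ∈ D.V0 j, 8 * D.mu j x ≤ ∑ x ∈ D.Gam j, 8 * D.mu j x := by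
      apply Finset.sum_le_sum_of_subset_of_nonneg
      · unfold V0
        exact Finset.filter_subset _ _
      · intro x _ _
        have := D.mu_nonneg j x
        linarith
    rw [Finset.mul_sum]
    exact s1.trans s2
  have h2 := D.sum_mu j
  have hpos : (0 : ℝ) < D.N := by nlinarith
  have hk : (0 : ℝ) ≤ D.k := Nat.cast_nonneg _
  have h3 : 2 ^ 13 * ((D.k : ℝ) + 1) * ((D.N : ℝ) * (D.V0 j).card) ≤ (D.N : ℝ) ^ 2 := by
    have : 2 ^ 13 * ((D.k : ℝ) + 1) * ((D.N : ℝ) * (D.V0 j).card) ≤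
        2 ^ 13 * ((D.k : ℝ) + 1) * (8 * ∑ x ∈ D.Gam j, D.mu j x) :=
      mul_le_mul_of_nonneg_left h1 (by positivity)
    nlinarith
  have h4 : D.N * (2 ^ 13 * ((D.k : ℝ) + 1) * (D.V0 j).card) ≤ (D.N : ℝ) * D.N := by nlinarith
  exact le_of_mul_le_mul_left h4 hpos

open Classical in
/-- number of deviating elements: mean small, but rejected by a quarter of the columns -/
noncomputable def dev (σ : Fin n → Equiv.Perm (Fin n)) : ℝ :=
  ∑ j, ∑ x ∈ D.Gam j, if (8 * D.mu j x < D.N ∧ (D.N : ℝ) ≤ 4 * D.Xb j x σ) then (1 : ℝ) else 0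

/-- [x4] Chebyshev: `P((j, x) deviates) ≤ 2 mu / (N/8)² = 128 mu / N²` (`var_Xb`); `sum_mu`. -/
theorem ex_dev : 2 ^ 9 * ((D.k : ℝ) + 1) * Ex D.Ar D.dev ≤ n := by
  classical
  have hN := x2_N_ge D
  have hpos : (0 : ℝ) < D.N := by nlinarith
  have hk : (0 : ℝ) ≤ D.k := Nat.cast_nonneg _
  have e1 : Ex D.Ar D.dev = ∑ j, ∑ x ∈ D.Gam j,
      Ex D.Ar (fun σ => if (8 * D.mu j x < D.N ∧ (D.N : ℝ) ≤ 4 * D.Xb j x σ) then (1 : ℝ) else 0) := by
    have : D.dev = fun σ => ∑ j, ∑ x ∈ D.Gam j,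
      if (8 * D.mu j x < D.N ∧ (D.N : ℝ) ≤ 4 * D.Xb j x σ) then (1 : ℝ) else 0 := rfl
    rw [this, x1_Ex_sum]
    exact Finset.sum_congr rfl (fun j _ => x1_Ex_sum _ _ _)
  have h1 : ∀ j x, Ex D.Ar (fun σ => if (8 * D.mu j x < D.N ∧ (D.N : ℝ) ≤ 4 * D.Xb j x σ)
      then (1 : ℝ) else 0) ≤ 128 * D.mu j x / (D.N : ℝ) ^ 2 := by
    intro j x
    have s1 : Ex D.Ar (fun σ => if (8 * D.mu j x < D.N ∧ (D.N : ℝ) ≤ 4 * D.Xb j x σ)
      then (1 : ℝ) else 0) ≤
        Ex D.Ar (fun σ => if (D.N : ℝ) ^ 2 / 64 ≤ (D.Xb j x σ - D.mu j x) ^ 2 then (1 : ℝ) else 0) := by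
      apply x1_Ex_mono
      intro σ _
      by_cases hh : (8 * D.mu j x < D.N ∧ (D.N : ℝ) ≤ 4 * D.Xb j x σ)
      · rw [if_pos hh]
        have : (D.N : ℝ) ^ 2 / 64 ≤ (D.Xb j x σ - D.mu j x) ^ 2 := by
          have h3 : (D.N : ℝ) / 8 ≤ D.Xb j x σ - D.mu j x := by linarith [hh.1, hh.2]
          have h4 : (0 : ℝ) ≤ (D.N : ℝ) / 8 := by positivity
          nlinarith
        rw [if_pos this]
      · rw [if_neg hh]
        split_ifs <;> norm_num
    have s2 := markov' D.Ar (fun σ => (D.Xb j x σ - D.mu j x) ^ 2) (fun σ _ => sq_nonneg _)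
      ((D.N : ℝ) ^ 2 / 64) (by positivity)
    have s3 := D.var_Xb j x
    refine s1.trans (s2.trans ?_)
    rw [div_le_div_iff₀ (by positivity) (by positivity)]
    have : (0 : ℝ) < (D.N : ℝ) ^ 2 := by positivity
    nlinarith
  have h2 : ∀ j : Fin n, 2 ^ 9 * ((D.k : ℝ) + 1) * ∑ x ∈ D.Gam j,
      Ex D.Ar (fun σ => if (8 * D.mu j x < D.N ∧ (D.N : ℝ) ≤ 4 * D.Xb j x σ)
        then (1 : ℝ) else 0) ≤ 1 := by
    intro j
    have s1 : ∑ x ∈ D.Gam j,
      Ex D.Ar (fun σ => if (8 * D.mu j x < D.N ∧ (D.N : ℝ) ≤ 4 * D.Xb j x σ)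
        then (1 : ℝ) else 0) ≤ ∑ x ∈ D.Gam j, 128 * D.mu j x / (D.N : ℝ) ^ 2 :=
      Finset.sum_le_sum (fun x _ => h1 j x)
    have s2 : ∑ x ∈ D.Gam j, 128 * D.mu j x / (D.N : ℝ) ^ 2 =
        128 / (D.N : ℝ) ^ 2 * ∑ x ∈ D.Gam j, D.mu j x := by
      rw [Finset.mul_sum]
      exact Finset.sum_congr rfl (fun x _ => by ring)
    have s3 := D.sum_mu j
    have s4 : 2 ^ 9 * ((D.k : ℝ) + 1) * (128 / (D.N : ℝ) ^ 2 * ∑ x ∈ D.Gam j, D.mu j x) ≤ 1 := by
      have : 2 ^ 9 * ((D.k : ℝ) + 1) * (128 / (D.N : ℝ) ^ 2 * ∑ x ∈ D.Gam j, D.mu j x) =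
          (2 ^ 16 * ((D.k : ℝ) + 1) * ∑ x ∈ D.Gam j, D.mu j x) / (D.N : ℝ) ^ 2 := by
        field_simp
        ring
      rw [this, div_le_one (by positivity)]
      exact s3
    refine le_trans (mul_le_mul_of_nonneg_left s1 (by positivity)) ?_
    rw [s2]
    exact s4
  rw [e1, Finset.mul_sum]
  refine (Finset.sum_le_sum (fun j _ => h2 j)).trans ?_
  simp

/-- total corank of the columns -/
noncomputable def cor (σ : Fin n → Equiv.Perm (Fin n)) : ℝ := ∑ c, ((n : ℝ) - D.rk (colm σ c))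

/-- [x5] `ex_col`, `sum_corank`, `card_dep`. -/
theorem ex_cor : 2 ^ 15 * ((D.k : ℝ) + 1) * Ex D.Ar D.cor ≤ n := by
  have hk : (0 : ℝ) ≤ D.k := Nat.cast_nonneg _
  have e1 : Ex D.Ar D.cor = ∑ c, Ex (D.Om c) (fun z => (n : ℝ) - D.rk z) := by
    have : D.cor = fun σ => ∑ c, ((n : ℝ) - D.rk (colm σ c)) := rfl
    rw [this, x1_Ex_sum]
    exact Finset.sum_congr rfl (fun c _ => D.ex_col c (fun z => (n : ℝ) - D.rk z))
  have h1 : ∀ c ∈ (univ : Finset (Fin n)),
      2 ^ 15 * ((D.k : ℝ) + 1) * Ex (D.Om c) (fun z => (n : ℝ) - D.rk z) ≤ 1 := by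
    intro c _
    have hpos : (0 : ℝ) < (D.Om c).card := by exact_mod_cast D.Om_pos c
    unfold Ex
    rw [← mul_div_assoc, div_le_one hpos]
    have s1 := D.sum_corank c
    have s2 := D.card_dep c
    have s3 : 2 ^ 15 * ((D.k : ℝ) + 1) * ∑ w ∈ D.Om c, ((n : ℝ) - D.rk w) ≤
        2 ^ 15 * ((D.k : ℝ) + 1) * (2 * (D.dep c).card) :=
      mul_le_mul_of_nonneg_left s1 (by positivity)
    nlinarith
  rw [e1, Finset.mul_sum]
  refine (Finset.sum_le_sum h1).trans ?_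
  simp

open Classical in
/-- number of pairs (row `j`, column `c`) such that column `c` rejects a quarter of the free elements of row `j` -/
noncomputable def tt (σ : Fin n → Equiv.Perm (Fin n)) : ℝ :=
  ∑ c, ∑ j ∈ D.F c, if (D.N : ℝ) ≤ 4 * ∑ x ∈ D.Gam j, D.rej j x (colm σ c) then (1 : ℝ) else 0

/-- [x5] `markov'`, `ex_col`, `sum_rej`, `card_dep`: every pair has probability `≤ 4 π_c`. -/
theorem ex_tt : 2 ^ 14 * ((D.k : ℝ) + 1) * Ex D.Ar D.tt ≤ n * D.N := by
  classical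
  have hN := x2_N_ge D
  have hpos : (0 : ℝ) < D.N := by nlinarith
  have hk : (0 : ℝ) ≤ D.k := Nat.cast_nonneg _
  have e1 : Ex D.Ar D.tt = ∑ c, ∑ j ∈ D.F c, Ex (D.Om c)
      (fun z => if (D.N : ℝ) ≤ 4 * ∑ x ∈ D.Gam j, D.rej j x z then (1 : ℝ) else 0) := by
    have : D.tt = fun σ => ∑ c, ∑ j ∈ D.F c,
      if (D.N : ℝ) ≤ 4 * ∑ x ∈ D.Gam j, D.rej j x (colm σ c) then (1 : ℝ) else 0 := rfl
    rw [this, x1_Ex_sum]
    refine Finset.sum_congr rfl (fun c _ => ?_)
    rw [x1_Ex_sum]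
    exact Finset.sum_congr rfl (fun j _ => D.ex_col c
      (fun z => if (D.N : ℝ) ≤ 4 * ∑ x ∈ D.Gam j, D.rej j x z then (1 : ℝ) else 0))
  have h1 : ∀ c, ∀ j ∈ D.F c, 2 ^ 14 * ((D.k : ℝ) + 1) * Ex (D.Om c)
      (fun z => if (D.N : ℝ) ≤ 4 * ∑ x ∈ D.Gam j, D.rej j x z then (1 : ℝ) else 0) ≤ 1 := by
    intro c j hj
    have hc : c ∈ D.Gam j := by
      unfold Gam
      rw [Finset.mem_filter]
      exact ⟨Finset.mem_univ _, D.mem_F.mp hj⟩
    have s1 := markov' (D.Om c) (fun z => 4 * ∑ x ∈ D.Gam j, D.rej j x z)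
      (fun z _ => mul_nonneg (by norm_num) (Finset.sum_nonneg (fun x _ => x1_rej_nonneg D j x z)))
      (D.N : ℝ) hpos
    have s2 : Ex (D.Om c) (fun z => 4 * ∑ x ∈ D.Gam j, D.rej j x z) =
        4 * (D.N * ((D.dep c).card / (D.Om c).card : ℝ)) := by
      rw [← D.sum_rej hc, ← x1_Ex_sum]
      unfold Ex
      rw [← Finset.mul_sum, mul_div_assoc]
    rw [s2] at s1
    have s3 : 4 * (D.N * ((D.dep c).card / (D.Om c).card : ℝ)) / D.N =
        4 * ((D.dep c).card / (D.Om c).card : ℝ) := by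
      rw [mul_left_comm]
      exact mul_div_cancel_left₀ _ hpos.ne'
    rw [s3] at s1
    have s4 := x3_dep D c
    refine le_trans (mul_le_mul_of_nonneg_left s1 (by positivity)) ?_
    refine le_trans (le_of_eq ?_) s4
    ring
  have h2 : ∀ c ∈ (univ : Finset (Fin n)), 2 ^ 14 * ((D.k : ℝ) + 1) * ∑ j ∈ D.F c, Ex (D.Om c)
      (fun z => if (D.N : ℝ) ≤ 4 * ∑ x ∈ D.Gam j, D.rej j x z then (1 : ℝ) else 0) ≤ D.N := by
    intro c _
    rw [Finset.mul_sum]
    refine (Finset.sum_le_sum (h1 c)).trans ?_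
    rw [Finset.sum_const, nsmul_eq_mul, D.card_F]
    simp
  rw [e1, Finset.mul_sum]
  refine (Finset.sum_le_sum h2).trans ?_
  simp

open Classical in
/-- number of the entries of column `c` in `V0` -/
noncomputable def yc (c : Fin n) (z : Fin n → Fin n) : ℝ :=
  ∑ j ∈ D.F c, if z j ∈ D.V0 j then (1 : ℝ) else 0

open Classical in
private theorem x6_yc (c : Fin n) (z : Fin n → Fin n) :
    D.yc c z = (((D.F c).filter (fun j => z j ∈ D.V0 j)).card : ℝ) := by
  unfold yc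
  rw [Finset.sum_boole]

open Classical in
private theorem x6_prod (c : Fin n) (z : Fin n → Fin n) :
    ∏ i : Fin n, (if i ∈ D.F c ∧ z i ∈ D.V0 i then (2 : ℝ) else 1) =
      2 ^ ((D.F c).filter (fun j => z j ∈ D.V0 j)).card := by
  rw [Finset.prod_ite, Finset.prod_const, Finset.prod_const_one, mul_one]
  congr 2
  ext i
  simp

private theorem x6_N_pos : (1 : ℝ) ≤ D.N := by
  have h := D.N_big
  have : 1 ≤ D.N := by
    have : 0 < 2 ^ 39 * (D.k + 1) ^ 3 := by positivity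
    omega
  exact_mod_cast this

open Classical in
private theorem x6_sum (c : Fin n) :
    ∑ z ∈ D.Om c, (2 : ℝ) ^ ((D.F c).filter (fun j => z j ∈ D.V0 j)).card ≤
      (D.N : ℝ) ^ D.N * Real.exp (D.N / (2 ^ 13 * (D.k + 1))) := by
  have hN := D.x6_N_pos
  set K : ℝ := (D.k : ℝ) + 1 with hK
  have hK0 : 0 < K := by positivity
  have h1 : ∑ z ∈ D.Om c, (2 : ℝ) ^ ((D.F c).filter (fun j => z j ∈ D.V0 j)).card =
      ∏ i : Fin n, ∑ x ∈ D.S c i, (if i ∈ D.F c ∧ x ∈ D.V0 i then (2 : ℝ) else 1) := by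
    rw [Finset.prod_univ_sum]
    apply Finset.sum_congr rfl
    intro z _
    rw [x6_prod]
  rw [h1]
  have h2 : ∀ i : Fin n, ∑ x ∈ D.S c i, (if i ∈ D.F c ∧ x ∈ D.V0 i then (2 : ℝ) else 1) ≤
      if i ∈ D.F c then (D.N : ℝ) * (1 + 1 / (2 ^ 13 * K)) else 1 := by
    intro i
    by_cases hi : i ∈ D.F c
    · simp only [hi, true_and, if_true]
      have e1 : ∑ x ∈ D.S c i, (if x ∈ D.V0 i then (2 : ℝ) else 1) =
          ∑ x ∈ D.S c i, (1 + if x ∈ D.V0 i then (1 : ℝ) else 0) := by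
        apply Finset.sum_congr rfl
        intro x _
        split_ifs <;> norm_num
      rw [e1, Finset.sum_add_distrib, Finset.sum_boole, Finset.sum_const, nsmul_eq_mul, mul_one,
        D.card_S hi]
      have e2 : (((D.S c i).filter (fun x => x ∈ D.V0 i)).card : ℝ) ≤ (D.V0 i).card := by
        exact_mod_cast card_le_card (fun x hx => (mem_filter.1 hx).2)
      have e3 := D.card_V0 i
      have e4 : ((D.V0 i).card : ℝ) ≤ D.N * (1 / (2 ^ 13 * K)) := by
        rw [mul_one_div, le_div_iff₀ (by positivity)]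
        linarith
      linarith
    · have hi' : (i, c) ∈ D.Q := by
        by_contra h
        exact hi (D.mem_F.2 h)
      simp only [hi, false_and, if_false]
      unfold S
      rw [if_pos hi', Finset.sum_singleton]
  have h3 : ∏ i : Fin n, ∑ x ∈ D.S c i, (if i ∈ D.F c ∧ x ∈ D.V0 i then (2 : ℝ) else 1) ≤
      ∏ i : Fin n, if i ∈ D.F c then (D.N : ℝ) * (1 + 1 / (2 ^ 13 * K)) else 1 := by
    apply Finset.prod_le_prod
    · intro i _
      apply Finset.sum_nonneg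
      intro x _
      split_ifs <;> norm_num
    · intro i _
      exact h2 i
  refine h3.trans ?_
  rw [Finset.prod_ite, Finset.prod_const, Finset.prod_const_one, mul_one,
    show (univ.filter (fun i => i ∈ D.F c)) = D.F c from by ext; simp, D.card_F, mul_pow]
  apply mul_le_mul_of_nonneg_left _ (by positivity)
  calc (1 + 1 / (2 ^ 13 * K)) ^ D.N ≤ (Real.exp (1 / (2 ^ 13 * K))) ^ D.N := by
        apply pow_le_pow_left₀ (by positivity)
        linarith [Real.add_one_le_exp (1 / (2 ^ 13 * K))]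
    _ = Real.exp (D.N / (2 ^ 13 * K)) := by
        rw [← Real.exp_nat_mul]
        congr 1
        ring

private theorem x6_num : 8 * (n : ℝ) * Real.exp (D.N / (2 ^ 13 * ((D.k : ℝ) + 1))) ≤
    Real.exp (D.N / (32 * ((D.k : ℝ) + 1)) * Real.log 2) := by
  have hN := D.x6_N_pos
  set K : ℝ := (D.k : ℝ) + 1 with hK
  have hK0 : 0 < K := by positivity
  set M : ℝ := D.N / K with hM
  have hM0 : 0 < M := by positivity
  have e1 : (D.N : ℝ) / (2 ^ 13 * K) = M / 2 ^ 13 := by rw [hM]; field_simp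
  have e2 : (D.N : ℝ) / (32 * K) = M / 32 := by rw [hM]; field_simp
  rw [e1, e2]
  have hbig : (2 : ℝ) ^ 39 * K ^ 3 ≤ D.N := by
    have := D.N_big
    have h : ((2 ^ 39 * (D.k + 1) ^ 3 : ℕ) : ℝ) ≤ D.N := by exact_mod_cast this
    push_cast at h
    rw [hK]
    linarith
  have hM3 : (2 : ℝ) ^ 39 * (D.N : ℝ) ^ 2 ≤ M ^ 3 := by
    rw [hM, div_pow, le_div_iff₀ (by positivity)]
    nlinarith [sq_nonneg (D.N : ℝ)]
  have hexp : (M / 64) ^ 3 / 6 ≤ Real.exp (M / 64) := by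
    have h := Real.pow_div_factorial_le_exp (M / 64) (by positivity) 3
    have h6 : ((Nat.factorial 3 : ℕ) : ℝ) = 6 := by norm_num [Nat.factorial]
    rwa [h6] at h
  have hn : (n : ℝ) ≤ 2 * D.N := by exact_mod_cast D.n_le
  have h8 : 8 * (n : ℝ) ≤ Real.exp (M / 64) := by
    refine le_trans ?_ hexp
    have h1 : (D.N : ℝ) ≤ (D.N : ℝ) ^ 2 := by nlinarith
    have h2 : (M / 64) ^ 3 / 6 = M ^ 3 / (6 * 2 ^ 18) := by ring
    rw [h2, le_div_iff₀ (by positivity)]
    nlinarith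
  calc 8 * (n : ℝ) * Real.exp (M / 2 ^ 13) ≤ Real.exp (M / 64) * Real.exp (M / 2 ^ 13) := by
        apply mul_le_mul_of_nonneg_right h8 (Real.exp_pos _).le
    _ = Real.exp (M / 64 + M / 2 ^ 13) := (Real.exp_add _ _).symm
    _ ≤ Real.exp (M / 32 * Real.log 2) := by
        apply Real.exp_le_exp.2
        have := Real.log_two_gt_d9
        nlinarith

/-- [x6] Proof: `∑_z 2^(yc z) = ∏_{j ∈ F c} (N + |V0 j|)` (`Finset.prod_univ_sum` backwards), `≤ N^N (1 + 2^-13/(k+1))^N ≤ N^N exp (2^-13 M)`,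
`M = N/(k+1)`; so `P(yc ≥ M/32) ≤ exp (2^-13 M) 2^(-M/32) ≤ 2^(-M/64)`, and `8 n ≤ 16 N ≤ 2^(M/64)` since `M³ ≥ 2^39 N²` and
`exp y ≥ y³/6`. -/
theorem ex_yc (c : Fin n) :
    8 * (n : ℝ) * (((D.Om c).filter (fun z => (D.N : ℝ) ≤ 32 * (D.k + 1) * D.yc c z)).card : ℝ) ≤
      (D.Om c).card := by
  have hN := D.x6_N_pos
  set K : ℝ := (D.k : ℝ) + 1 with hK
  have hK0 : 0 < K := by positivity
  set Bd := (D.Om c).filter (fun z => (D.N : ℝ) ≤ 32 * K * D.yc c z) with hBd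
  set W := Real.exp (D.N / (32 * K) * Real.log 2) with hW
  have hW0 : 0 < W := Real.exp_pos _
  have h1 : (Bd.card : ℝ) * W ≤ (D.N : ℝ) ^ D.N * Real.exp (D.N / (2 ^ 13 * K)) := by
    refine le_trans ?_ (D.x6_sum c)
    calc (Bd.card : ℝ) * W = ∑ z ∈ Bd, W := by rw [Finset.sum_const, nsmul_eq_mul]
      _ ≤ ∑ z ∈ Bd, (2 : ℝ) ^ ((D.F c).filter (fun j => z j ∈ D.V0 j)).card := by
          apply Finset.sum_le_sum
          intro z hz
          have h2 := (mem_filter.1 hz).2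
          rw [x6_yc] at h2
          have h3 : (D.N : ℝ) / (32 * K) ≤ (((D.F c).filter (fun j => z j ∈ D.V0 j)).card : ℝ) := by
            rw [div_le_iff₀ (by positivity)]
            linarith
          rw [hW, ← Real.rpow_natCast, Real.rpow_def_of_pos (by norm_num)]
          apply Real.exp_le_exp.2
          rw [mul_comm (Real.log 2)]
          exact mul_le_mul_of_nonneg_right h3 (Real.log_nonneg (by norm_num))
      _ ≤ ∑ z ∈ D.Om c, (2 : ℝ) ^ ((D.F c).filter (fun j => z j ∈ D.V0 j)).card := by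
          apply Finset.sum_le_sum_of_subset_of_nonneg (filter_subset _ _)
          intro z _ _
          positivity
  have h2 := D.x6_num
  have h3 : ((D.Om c).card : ℝ) = (D.N : ℝ) ^ D.N := by rw [D.card_Om]; push_cast; rfl
  rw [h3]
  have h4 : 8 * (n : ℝ) * Bd.card * W ≤ (D.N : ℝ) ^ D.N * W := by
    calc 8 * (n : ℝ) * Bd.card * W = 8 * n * ((Bd.card : ℝ) * W) := by ring
      _ ≤ 8 * n * ((D.N : ℝ) ^ D.N * Real.exp (D.N / (2 ^ 13 * K))) := by
          apply mul_le_mul_of_nonneg_left h1 (by positivity)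
      _ = (D.N : ℝ) ^ D.N * (8 * n * Real.exp (D.N / (2 ^ 13 * K))) := by ring
      _ ≤ (D.N : ℝ) ^ D.N * W := by
          apply mul_le_mul_of_nonneg_left h2 (by positivity)
  exact le_of_mul_le_mul_right h4 hW0

/-- [x7] number of the entries of column `c` of `σ` rejected by a quarter of the columns: at most `dev` plus `yc`. -/
theorem high_le (σ : Fin n → Equiv.Perm (Fin n)) (hσ : σ ∈ D.Ar) (c : Fin n) :
    (((D.F c).filter (fun j => (D.N : ℝ) ≤ 4 * D.Xb j (σ j c) σ)).card : ℝ) ≤ D.dev σ + D.yc c (colm σ c) := by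
  have hnn : ∀ j x, (0 : ℝ) ≤ if (8 * D.mu j x < D.N ∧ (D.N : ℝ) ≤ 4 * D.Xb j x σ) then (1 : ℝ) else 0 := by
    intro j x
    split_ifs <;> norm_num
  have h1 : (((D.F c).filter (fun j => (D.N : ℝ) ≤ 4 * D.Xb j (σ j c) σ)).card : ℝ) =
      ∑ j ∈ D.F c, if (D.N : ℝ) ≤ 4 * D.Xb j (σ j c) σ then (1 : ℝ) else 0 := by
    rw [Finset.sum_boole]
  have hGam : ∀ j ∈ D.F c, σ j c ∈ D.Gam j := by
    intro j hj
    unfold Gam
    rw [mem_filter]
    exact ⟨mem_univ _, fun h => (D.mem_F.1 hj) ((D.Ar_free hσ).1 h)⟩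
  have h2 : ∀ j ∈ D.F c, (if (D.N : ℝ) ≤ 4 * D.Xb j (σ j c) σ then (1 : ℝ) else 0) ≤
      (∑ x ∈ D.Gam j, if (8 * D.mu j x < D.N ∧ (D.N : ℝ) ≤ 4 * D.Xb j x σ) then (1 : ℝ) else 0) +
        if (colm σ c) j ∈ D.V0 j then (1 : ℝ) else 0 := by
    intro j hj
    have h3 : (if (8 * D.mu j (σ j c) < D.N ∧ (D.N : ℝ) ≤ 4 * D.Xb j (σ j c) σ) then (1 : ℝ) else 0) ≤
        ∑ x ∈ D.Gam j, if (8 * D.mu j x < D.N ∧ (D.N : ℝ) ≤ 4 * D.Xb j x σ) then (1 : ℝ) else 0 :=
      Finset.single_le_sum (f := fun x => if (8 * D.mu j x < D.N ∧ (D.N : ℝ) ≤ 4 * D.Xb j x σ)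
        then (1 : ℝ) else 0) (fun x _ => hnn j x) (hGam j hj)
    refine le_trans ?_ (add_le_add_left h3 _)
    by_cases hN : (D.N : ℝ) ≤ 4 * D.Xb j (σ j c) σ
    · by_cases hm : 8 * D.mu j (σ j c) < D.N
      · rw [if_pos hN, if_pos ⟨hm, hN⟩]
        split_ifs <;> norm_num
      · have hv : colm σ c j ∈ D.V0 j := by
          unfold V0
          rw [mem_filter]
          exact ⟨hGam j hj, not_lt.1 hm⟩
        rw [if_pos hN, if_pos hv]
        linarith [hnn j (σ j c)]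
    · rw [if_neg hN]
      have := hnn j (σ j c)
      split_ifs at this ⊢ <;> norm_num
  rw [h1]
  refine (Finset.sum_le_sum h2).trans ?_
  rw [Finset.sum_add_distrib]
  unfold dev yc
  refine add_le_add ?_ le_rfl
  apply Finset.sum_le_sum_of_subset_of_nonneg (subset_univ _)
  intro j _ _
  exact Finset.sum_nonneg (fun x _ => hnn j x)

/-- the properties of the arrangement used in the repair -/
structure Nice (σ : Fin n → Equiv.Perm (Fin n)) : Prop where
  mem : σ ∈ D.Ar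
  cor : 2 ^ 13 * ((D.k : ℝ) + 1) * D.cor σ ≤ n
  tt : 2 ^ 12 * ((D.k : ℝ) + 1) * D.tt σ ≤ n * D.N
  high : ∀ c, 16 * ((D.k : ℝ) + 1) *
    ((D.F c).filter (fun j => (D.N : ℝ) ≤ 4 * D.Xb j (σ j c) σ)).card ≤ D.N

open Classical in
private theorem x8_frac {ω : Type*} (s : Finset ω) (P : ω → Prop) :
    Ex s (fun w => if P w then (1 : ℝ) else 0) = ((s.filter P).card : ℝ) / s.card := by
  unfold Ex
  rw [Finset.sum_boole]

open Classical in
private theorem x8_union (c : Fin n) :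
    8 * (n : ℝ) * ((D.Ar.filter (fun σ => (D.N : ℝ) ≤ 32 * (D.k + 1) * D.yc c (colm σ c))).card : ℝ) ≤
      D.Ar.card := by
  have h1 := D.ex_col c (fun z => if (D.N : ℝ) ≤ 32 * (D.k + 1) * D.yc c z then (1 : ℝ) else 0)
  rw [x8_frac, x8_frac] at h1
  have hA : (0 : ℝ) < D.Ar.card := by exact_mod_cast D.Ar_pos
  have hO : (0 : ℝ) < (D.Om c).card := by exact_mod_cast D.Om_pos c
  have h2 := D.ex_yc c
  rw [div_eq_div_iff hA.ne' hO.ne'] at h1
  have h3 : 8 * (n : ℝ) * ((D.Ar.filter (fun σ => (D.N : ℝ) ≤ 32 * (D.k + 1) * D.yc c (colm σ c))).card : ℝ)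
      * (D.Om c).card ≤ D.Ar.card * (D.Om c).card := by
    rw [mul_assoc, h1]
    calc 8 * (n : ℝ) * ((((D.Om c).filter (fun z => (D.N : ℝ) ≤ 32 * (D.k + 1) * D.yc c z)).card : ℝ) *
          D.Ar.card) = (8 * (n : ℝ) *
          (((D.Om c).filter (fun z => (D.N : ℝ) ≤ 32 * (D.k + 1) * D.yc c z)).card : ℝ)) * D.Ar.card := by
          ring
      _ ≤ (D.Om c).card * D.Ar.card := by
          apply mul_le_mul_of_nonneg_right h2 hA.le
      _ = _ := by ring
  exact le_of_mul_le_mul_right h3 hO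

/-- [x8] Proof: `markov` for `cor`, `tt`, `dev` (each bad with probability `≤ 1/4`) and `ex_yc` with `ex_col` (union over the `n` columns:
`≤ 1/8`); `dev ≤ n/(2^7 (k+1)) ≤ N/(64 (k+1))`, `yc ≤ N/(32 (k+1))`, sum `≤ N/(16 (k+1))`. -/
theorem exists_nice : ∃ σ, D.Nice σ := by
  classical
  have hN := D.x6_N_pos
  set K : ℝ := (D.k : ℝ) + 1 with hK
  have hK0 : 0 < K := by positivity
  have hn : (n : ℝ) ≤ 2 * D.N := by exact_mod_cast D.n_le
  have hn1 : (1 : ℝ) ≤ n := by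
    have h := D.N_add
    have : D.N ≤ n := by omega
    have : (D.N : ℝ) ≤ n := by exact_mod_cast this
    linarith
  have hA : (0 : ℝ) < D.Ar.card := by exact_mod_cast D.Ar_pos
  have hcor0 : ∀ σ ∈ D.Ar, 0 ≤ D.cor σ := by
    intro σ _
    unfold cor
    apply Finset.sum_nonneg
    intro c _
    have : (D.rk (colm σ c) : ℝ) ≤ n := by exact_mod_cast D.rk_le _
    linarith
  have htt0 : ∀ σ ∈ D.Ar, 0 ≤ D.tt σ := by
    intro σ _
    unfold tt
    apply Finset.sum_nonneg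
    intro c _
    apply Finset.sum_nonneg
    intro j _
    split_ifs <;> norm_num
  have hdev0 : ∀ σ ∈ D.Ar, 0 ≤ D.dev σ := by
    intro σ _
    unfold dev
    apply Finset.sum_nonneg
    intro c _
    apply Finset.sum_nonneg
    intro j _
    split_ifs <;> norm_num
  have m1 := markov D.Ar D.cor hcor0 (n / (2 ^ 13 * K)) (by positivity) (by
    have := D.ex_cor
    rw [le_div_iff₀ (by positivity)]
    nlinarith)
  have m2 := markov D.Ar D.tt htt0 (n * D.N / (2 ^ 12 * K)) (by positivity) (by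
    have := D.ex_tt
    rw [le_div_iff₀ (by positivity)]
    nlinarith)
  have m3 := markov D.Ar D.dev hdev0 (n / (2 ^ 7 * K)) (by positivity) (by
    have := D.ex_dev
    rw [le_div_iff₀ (by positivity)]
    nlinarith)
  set A1 := D.Ar.filter (fun w => n / (2 ^ 13 * K) < D.cor w) with hA1
  set A2 := D.Ar.filter (fun w => n * D.N / (2 ^ 12 * K) < D.tt w) with hA2
  set A3 := D.Ar.filter (fun w => n / (2 ^ 7 * K) < D.dev w) with hA3
  set B : Fin n → Finset (Fin n → Equiv.Perm (Fin n)) := fun c =>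
    D.Ar.filter (fun σ => (D.N : ℝ) ≤ 32 * K * D.yc c (colm σ c)) with hB
  have hB8 : 8 * (((univ : Finset (Fin n)).biUnion B).card : ℝ) ≤ D.Ar.card := by
    have h1 : (((univ : Finset (Fin n)).biUnion B).card : ℝ) ≤ ∑ c, ((B c).card : ℝ) := by
      exact_mod_cast Finset.card_biUnion_le
    have h2 : ∀ c, 8 * ((B c).card : ℝ) ≤ D.Ar.card / n := by
      intro c
      rw [le_div_iff₀ (by linarith)]
      have := D.x8_union c
      simp only [hB]
      linarith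
    calc 8 * (((univ : Finset (Fin n)).biUnion B).card : ℝ) ≤ 8 * ∑ c, ((B c).card : ℝ) := by linarith
      _ = ∑ c : Fin n, 8 * ((B c).card : ℝ) := by rw [Finset.mul_sum]
      _ ≤ ∑ _c : Fin n, (D.Ar.card / n : ℝ) := Finset.sum_le_sum (fun c _ => h2 c)
      _ = D.Ar.card := by
        rw [Finset.sum_const, card_univ, Fintype.card_fin, nsmul_eq_mul]
        field_simp
  obtain ⟨σ, hσ, hgood⟩ : ∃ σ ∈ D.Ar, σ ∉ A1 ∪ A2 ∪ A3 ∪ (univ : Finset (Fin n)).biUnion B := by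
    by_contra hno
    push Not at hno
    have hsub : D.Ar ⊆ A1 ∪ A2 ∪ A3 ∪ (univ : Finset (Fin n)).biUnion B := hno
    have h1 := card_le_card hsub
    have h2 := card_union_le (A1 ∪ A2 ∪ A3) ((univ : Finset (Fin n)).biUnion B)
    have h3 := card_union_le (A1 ∪ A2) A3
    have h4 := card_union_le A1 A2
    have h5 : D.Ar.card ≤ A1.card + A2.card + A3.card + ((univ : Finset (Fin n)).biUnion B).card := by
      omega
    have h6 : (D.Ar.card : ℝ) ≤ A1.card + A2.card + A3.card + ((univ : Finset (Fin n)).biUnion B).card := by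
      exact_mod_cast h5
    linarith
  simp only [mem_union, not_or, mem_biUnion, not_exists, not_and, mem_univ, true_implies] at hgood
  obtain ⟨⟨⟨g1, g2⟩, g3⟩, g4⟩ := hgood
  have g1' : D.cor σ ≤ n / (2 ^ 13 * K) := by
    by_contra h
    exact g1 (mem_filter.2 ⟨hσ, not_le.1 h⟩)
  have g2' : D.tt σ ≤ n * D.N / (2 ^ 12 * K) := by
    by_contra h
    exact g2 (mem_filter.2 ⟨hσ, not_le.1 h⟩)
  have g3' : D.dev σ ≤ n / (2 ^ 7 * K) := by
    by_contra h
    exact g3 (mem_filter.2 ⟨hσ, not_le.1 h⟩)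
  have g4' : ∀ c, 32 * K * D.yc c (colm σ c) < D.N := by
    intro c
    by_contra h
    exact g4 c (mem_filter.2 ⟨hσ, not_lt.1 h⟩)
  refine ⟨σ, hσ, ?_, ?_, ?_⟩
  · rw [le_div_iff₀ (by positivity)] at g1'
    linarith
  · rw [le_div_iff₀ (by positivity)] at g2'
    linarith
  · intro c
    have h1 := D.high_le σ hσ c
    rw [le_div_iff₀ (by positivity)] at g3'
    have h2 := g4' c
    have h3 : 16 * K * ((((D.F c).filter (fun j => (D.N : ℝ) ≤ 4 * D.Xb j (σ j c) σ)).card : ℝ)) ≤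
        16 * K * (D.dev σ + D.yc c (colm σ c)) :=
      mul_le_mul_of_nonneg_left h1 (by positivity)
    nlinarith

end Cd

end Pool.Agent.RGi
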