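import Pool.Agent.RGi.Rep
import Pool.Agent.RotaP.Tra

set_option autoImplicit false

namespace Pool.Agent.RGi

open Finset Pool.Agent.RotaP

/-- [m1] Proof: `k = 0`: every set with `n` elements has rank `n`, the identities do (`card_Zs`).  `k ≥ 1`: `exists_Cd`, `Cd.exists_all`;
with the `ρ` of `exists_all` take `σ i = ρ i` followed by `τ i`: the image of `Zs (colm ρ c)` under `e ↦ (e.1, τ e.1 e.2)` is
`{(i, τ i (ρ i c))}`. -/
theorem core_thm (n k : ℕ) (R : RkF (Fin n × Fin n)) (hg : Gir R n k)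
    (hbig : 2 ^ 40 * (k + 1) ^ 3 ≤ n) (hrow : ∀ i, R.r (univ.filter (fun e : Fin n × Fin n => e.1 = i)) = n) :
    ∃ σ : Fin n → Equiv.Perm (Fin n), ∀ c, R.r (univ.image (fun i => (i, σ i c))) = n := by
  rcases Nat.eq_zero_or_pos k with h0 | hk
  · subst h0
    refine ⟨fun _ => 1, fun c => ?_⟩
    have h1 : (Zs (fun _ : Fin n => c)).card = n := card_Zs _
    have h2 := hg.ind (Zs (fun _ => c)) (by omega)
    rw [h1] at h2
    exact h2
  · obtain ⟨D, τ, hD⟩ := exists_Cd n k R hg hk hbig hrow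
    obtain ⟨ρ, hρ, hall⟩ := D.exists_all
    refine ⟨fun i => (ρ i).trans (τ i), fun c => ?_⟩
    have h1 := hall c
    rw [Cd.rk, hD, Zs, image_image] at h1
    exact h1

/-- [m2] Proof: `transfer` with `rep = id`; for the enumerations `a` (`range (a i) = B i`, `a i` injective since `B i` has `n` elements)
`core_thm` for `pull (ofM M) (fun e => a e.1 e.2)` (its `Gir`: `e ↦ a e.1 e.2` is injective, the image of `X` is a subset of the union
with `|X|` elements, so `M.Indep`). -/
theorem rota_girth (α : Type*) (M : Matroid α) (n k : ℕ) (B : Fin n → Set α)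
    (hB : ∀ i, M.IsBase (B i)) (hn : ∀ i, (B i).encard = (n : ℕ∞))
    (hd : ∀ i j, i ≠ j → Disjoint (B i) (B j)) (hbig : 2 ^ 40 * (k + 1) ^ 3 ≤ n)
    (hg : ∀ X ⊆ ⋃ i, B i, X.encard + (k : ℕ∞) ≤ (n : ℕ∞) → M.Indep X) :
    ∃ T : Fin n → Set α, (∀ k, M.IsBase (T k)) ∧ (∀ k i, (T k ∩ B i).encard = 1) ∧
      (∀ k l, k ≠ l → Disjoint (T k) (T l)) := by
  classical
  refine transfer M n B hB hn hd id (fun i x hx => ⟨x, hx, rfl⟩) ?_
  intro a ha
  have hbas : ∀ i, Bas (ofM M) n (a i) := fun i => bas_of_range M n _ (hB i) (hn i) _ (ha i)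
  have hmem : ∀ i x, a i x ∈ B i := fun i x => by rw [← ha i]; exact ⟨x, rfl⟩
  have hf : Function.Injective (fun e : Fin n × Fin n => a e.1 e.2) := by
    intro e e' hee
    simp only at hee
    by_cases h1 : e.1 = e'.1
    · rw [h1] at hee
      exact Prod.ext h1 ((hbas e'.1).inj hee)
    · exfalso
      exact Set.disjoint_left.mp (hd _ _ h1) (hmem e.1 e.2) (by rw [hee]; exact hmem _ _)
  have hG : Gir (pull (ofM M) (fun e : Fin n × Fin n => a e.1 e.2)) n k := by
    constructor
    · intro S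
      rw [pull_r]
      rcases Nat.eq_zero_or_pos n with h0 | h0
      · subst h0
        have : S = ∅ := by
          ext e
          exact e.1.elim0
        rw [this, image_empty, (ofM M).r_empty]
      · exact (hbas ⟨0, h0⟩).le _
    · intro X hX
      rw [pull_r, ofM_r]
      have h1 : M.Indep ((X.image (fun e : Fin n × Fin n => a e.1 e.2) : Finset α) : Set α) := by
        apply hg
        · intro x hx
          rw [mem_coe, mem_image] at hx
          obtain ⟨e, _, rfl⟩ := hx
          exact Set.mem_iUnion.mpr ⟨e.1, hmem _ _⟩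
        · rw [Set.encard_coe_eq_coe_finsetCard, card_image_of_injective _ hf]
          exact_mod_cast hX
      rw [h1.eRk_eq_encard, Set.encard_coe_eq_coe_finsetCard, card_image_of_injective _ hf,
        ENat.toNat_natCast]
  have hR : ∀ i, (pull (ofM M) (fun e : Fin n × Fin n => a e.1 e.2)).r
      (univ.filter (fun e : Fin n × Fin n => e.1 = i)) = n := by
    intro i
    rw [pull_r]
    refine Eq.trans ?_ (hbas i).eq
    congr 1
    ext x
    simp only [mem_image, mem_filter, mem_univ, true_and]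
    constructor
    · rintro ⟨e, he, rfl⟩
      exact ⟨e.2, by rw [he]⟩
    · rintro ⟨y, rfl⟩
      exact ⟨(i, y), rfl, rfl⟩
  obtain ⟨σ, hσ⟩ := core_thm n k (pull (ofM M) (fun e : Fin n × Fin n => a e.1 e.2)) hG hbig hR
  refine ⟨σ, fun c => ?_⟩
  have h1 := hσ c
  rw [pull_r, image_image] at h1
  exact h1

end Pool.Agent.RGi
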