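import Mathlib

/-!
# Tensorisation of a covariance bound (section 5 of the text)
-/

set_option autoImplicit false

namespace Pool.Agent.RGi

open Finset

section

variable {β : Type*} [Fintype β]

/-- expectation of `F` of the left variable -/
def eL (q : β → β → ℝ) (F : β → ℝ) : ℝ := ∑ x, ∑ y, q x y * F x

/-- expectation of `G` of the right variable -/
def eR (q : β → β → ℝ) (G : β → ℝ) : ℝ := ∑ x, ∑ y, q x y * G y

/-- joint expectation -/
def eB (q : β → β → ℝ) (F G : β → ℝ) : ℝ := ∑ x, ∑ y, q x y * (F x * G y)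

/-- `q` is a probability weight on pairs with the covariance bound `ρ` -/
structure Cov (ρ : ℝ) (q : β → β → ℝ) : Prop where
  nonneg : ∀ x y, 0 ≤ q x y
  sum : ∑ x, ∑ y, q x y = 1
  cov : ∀ F G : β → ℝ, |eB q F G - eL q F * eR q G| ≤
    ρ / 2 * ((eL q (fun x => F x ^ 2) - eL q F ^ 2) + (eR q (fun y => G y ^ 2) - eR q G ^ 2))

end

private theorem t1_sum {β γ : Type*} [Fintype β] [Fintype γ] (H : β × γ → β × γ → ℝ) :
    ∑ p, ∑ r, H p r = ∑ x1, ∑ y1, ∑ x2, ∑ y2, H (x1, x2) (y1, y2) := by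
  simp only [Fintype.sum_prod_type]
  refine Finset.sum_congr rfl fun x1 _ => ?_
  rw [Finset.sum_comm]

private theorem t1_eL {β γ : Type*} [Fintype β] [Fintype γ] (q1 : β → β → ℝ) (q2 : γ → γ → ℝ) (F : β × γ → ℝ) :
    eL (fun (p r : β × γ) => q1 p.1 r.1 * q2 p.2 r.2) F = eL q1 (fun x1 => eL q2 (fun x2 => F (x1, x2))) := by
  unfold eL
  rw [t1_sum]
  refine Finset.sum_congr rfl fun x1 _ => Finset.sum_congr rfl fun y1 _ => ?_
  rw [Finset.mul_sum]
  refine Finset.sum_congr rfl fun x2 _ => ?_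
  rw [Finset.mul_sum]
  refine Finset.sum_congr rfl fun y2 _ => ?_
  ring

private theorem t1_eR {β γ : Type*} [Fintype β] [Fintype γ] (q1 : β → β → ℝ) (q2 : γ → γ → ℝ) (G : β × γ → ℝ) :
    eR (fun (p r : β × γ) => q1 p.1 r.1 * q2 p.2 r.2) G = eR q1 (fun y1 => eR q2 (fun y2 => G (y1, y2))) := by
  unfold eR
  rw [t1_sum]
  refine Finset.sum_congr rfl fun x1 _ => Finset.sum_congr rfl fun y1 _ => ?_
  rw [Finset.mul_sum]
  refine Finset.sum_congr rfl fun x2 _ => ?_
  rw [Finset.mul_sum]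
  refine Finset.sum_congr rfl fun y2 _ => ?_
  ring

private theorem t1_eB {β γ : Type*} [Fintype β] [Fintype γ] (q1 : β → β → ℝ) (q2 : γ → γ → ℝ)
    (F G : β × γ → ℝ) :
    eB (fun (p r : β × γ) => q1 p.1 r.1 * q2 p.2 r.2) F G
      = ∑ x1, ∑ y1, q1 x1 y1 * eB q2 (fun x2 => F (x1, x2)) (fun y2 => G (y1, y2)) := by
  unfold eB
  rw [t1_sum]
  refine Finset.sum_congr rfl fun x1 _ => Finset.sum_congr rfl fun y1 _ => ?_
  rw [Finset.mul_sum]
  refine Finset.sum_congr rfl fun x2 _ => ?_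
  rw [Finset.mul_sum]
  refine Finset.sum_congr rfl fun y2 _ => ?_
  ring

/-- [t1] Two independent pairs.  Proof: `F' x1 = eL q2 (F (x1, ·))`, `G' y1 = eR q2 (G (y1, ·))`.
`eB (q1 ⊗ q2) F G = ∑ q1 x1 y1 * eB q2 (F (x1, ·)) (G (y1, ·))`, each inner `eB` differs from `F' x1 * G' y1` by at most
`ρ/2 (Var F (x1, ·) + Var G (y1, ·))`; `|eB q1 F' G' - eL q1 F' * eR q1 G'| ≤ ρ/2 (Var F' + Var G')`; and
`Var F = eL q1 (Var F (x1, ·)) + Var F'`, the same for `G`. -/
theorem cov_prod {β γ : Type*} [Fintype β] [Fintype γ] {ρ : ℝ} (hρ : 0 ≤ ρ) {q1 : β → β → ℝ} {q2 : γ → γ → ℝ}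
    (h1 : Cov ρ q1) (h2 : Cov ρ q2) :
    Cov ρ (fun (p r : β × γ) => q1 p.1 r.1 * q2 p.2 r.2) := by

  have hs1 := h1.sum
  have hs2 := h2.sum
  refine ⟨fun x y => mul_nonneg (h1.nonneg _ _) (h2.nonneg _ _), ?_, fun F G => ?_⟩
  · rw [t1_sum]
    have e : ∀ x1 y1 : β, ∑ x2 : γ, ∑ y2 : γ, q1 x1 y1 * q2 x2 y2 = q1 x1 y1 := by
      intro x1 y1
      simp only [← Finset.mul_sum]
      rw [hs2, mul_one]
    simp only [e]
    exact hs1
  · set F' : β → ℝ := fun x1 => eL q2 (fun x2 => F (x1, x2)) with hF'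
    set G' : β → ℝ := fun y1 => eR q2 (fun y2 => G (y1, y2)) with hG'
    rw [t1_eL, t1_eR, t1_eB, t1_eL, t1_eR]
    rw [← hF', ← hG']
    set VL : β → ℝ := fun x1 => eL q2 (fun x2 => F (x1, x2) ^ 2) - F' x1 ^ 2 with hVL
    set VR : β → ℝ := fun y1 => eR q2 (fun y2 => G (y1, y2) ^ 2) - G' y1 ^ 2 with hVR
    have a1 := h1.cov F' G'
    have a2 : |∑ x1, ∑ y1, q1 x1 y1 * (eB q2 (fun x2 => F (x1, x2)) (fun y2 => G (y1, y2)) - F' x1 * G' y1)|
        ≤ ∑ x1, ∑ y1, q1 x1 y1 * (ρ / 2 * (VL x1 + VR y1)) := by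
      refine (Finset.abs_sum_le_sum_abs _ _).trans (Finset.sum_le_sum fun x1 _ => ?_)
      refine (Finset.abs_sum_le_sum_abs _ _).trans (Finset.sum_le_sum fun y1 _ => ?_)
      rw [abs_mul, abs_of_nonneg (h1.nonneg _ _)]
      exact mul_le_mul_of_nonneg_left (h2.cov _ _) (h1.nonneg _ _)
    have a3 : ∑ x1, ∑ y1, q1 x1 y1 * (eB q2 (fun x2 => F (x1, x2)) (fun y2 => G (y1, y2)) - F' x1 * G' y1)
        = (∑ x1, ∑ y1, q1 x1 y1 * eB q2 (fun x2 => F (x1, x2)) (fun y2 => G (y1, y2))) - eB q1 F' G' := by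
      unfold eB
      simp only [mul_sub, Finset.sum_sub_distrib]
    have a4 : ∑ x1, ∑ y1, q1 x1 y1 * (ρ / 2 * (VL x1 + VR y1))
        = ρ / 2 * ((eL q1 (fun x1 => eL q2 (fun x2 => F (x1, x2) ^ 2)) - eL q1 (fun x1 => F' x1 ^ 2))
          + (eR q1 (fun y1 => eR q2 (fun y2 => G (y1, y2) ^ 2)) - eR q1 (fun y1 => G' y1 ^ 2))) := by
      have e1 : eL q1 (fun x1 => eL q2 (fun x2 => F (x1, x2) ^ 2)) - eL q1 (fun x1 => F' x1 ^ 2) = eL q1 VL := by
        rw [hVL]
        conv_rhs => unfold eL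
        conv_lhs => enter [1]; unfold eL
        conv_lhs => enter [2]; unfold eL
        simp only [mul_sub, Finset.sum_sub_distrib]
      have e2 : eR q1 (fun y1 => eR q2 (fun y2 => G (y1, y2) ^ 2)) - eR q1 (fun y1 => G' y1 ^ 2) = eR q1 VR := by
        rw [hVR]
        conv_rhs => unfold eR
        conv_lhs => enter [1]; unfold eR
        conv_lhs => enter [2]; unfold eR
        simp only [mul_sub, Finset.sum_sub_distrib]
      rw [e1, e2, eL, eR, ← Finset.sum_add_distrib, Finset.mul_sum]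
      refine Finset.sum_congr rfl fun x1 _ => ?_
      rw [← Finset.sum_add_distrib, Finset.mul_sum]
      refine Finset.sum_congr rfl fun y1 _ => ?_
      ring
    rw [a3, a4] at a2
    have a5 : (∑ x1, ∑ y1, q1 x1 y1 * eB q2 (fun x2 => F (x1, x2)) (fun y2 => G (y1, y2))) - eL q1 F' * eR q1 G'
        = ((∑ x1, ∑ y1, q1 x1 y1 * eB q2 (fun x2 => F (x1, x2)) (fun y2 => G (y1, y2))) - eB q1 F' G')
          + (eB q1 F' G' - eL q1 F' * eR q1 G') := by ring
    rw [a5]
    refine (abs_add_le _ _).trans ((add_le_add a2 a1).trans (le_of_eq ?_))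
    ring

/-- [t2] transport along a bijection. -/
theorem cov_equiv {β γ : Type*} [Fintype β] [Fintype γ] {ρ : ℝ} (e : γ ≃ β) {q : β → β → ℝ} (h : Cov ρ q) :
    Cov ρ (fun x y => q (e x) (e y)) := by

  have key : ∀ H : γ → γ → ℝ, ∑ x, ∑ y, q (e x) (e y) * H x y = ∑ x, ∑ y, q x y * H (e.symm x) (e.symm y) := by
    intro H
    rw [← Equiv.sum_comp e (fun x => ∑ y, q x y * H (e.symm x) (e.symm y))]
    refine Finset.sum_congr rfl fun x _ => ?_
    rw [← Equiv.sum_comp e (fun y => q (e x) y * H (e.symm (e x)) (e.symm y))]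
    refine Finset.sum_congr rfl fun y _ => ?_
    rw [Equiv.symm_apply_apply, Equiv.symm_apply_apply]
  have kL : ∀ F : γ → ℝ, eL (fun x y => q (e x) (e y)) F = eL q (fun x => F (e.symm x)) := fun F =>
    key fun x _ => F x
  have kR : ∀ G : γ → ℝ, eR (fun x y => q (e x) (e y)) G = eR q (fun y => G (e.symm y)) := fun G =>
    key fun _ y => G y
  have kB : ∀ F G : γ → ℝ, eB (fun x y => q (e x) (e y)) F G = eB q (fun x => F (e.symm x)) (fun y => G (e.symm y)) :=
    fun F G => key fun x y => F x * G y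
  refine ⟨fun x y => h.nonneg _ _, ?_, fun F G => ?_⟩
  · have h1 := key fun _ _ => 1
    simp only [mul_one] at h1
    rw [h1]
    exact h.sum
  · rw [kL, kR, kB, kL, kR]
    exact h.cov _ _

/-- [t2] Induction on `m` with `Fin.consEquiv` (or `Fin.insertNthEquiv`), `Fin.prod_univ_succ`, `cov_prod`, `cov_equiv`. -/
theorem cov_pi {α : Type*} [Fintype α] {ρ : ℝ} (hρ : 0 ≤ ρ) (m : ℕ) (q : Fin m → α → α → ℝ)
    (h : ∀ i, Cov ρ (q i)) : Cov ρ (fun (z w : Fin m → α) => ∏ i, q i (z i) (w i)) := by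

  induction m with
  | zero =>
    refine ⟨fun x y => by simp, by simp, fun F G => ?_⟩
    have e0 : ∀ z : Fin 0 → α, z = default := fun z => Subsingleton.elim _ _
    simp [eB, eL, eR]
  | succ m ih =>
    have h1 := cov_prod hρ (h 0) (ih (fun i => q i.succ) (fun i => h i.succ))
    have h2 := cov_equiv (Fin.consEquiv (fun _ : Fin (m + 1) => α)).symm h1
    have e : (fun (z w : Fin (m + 1) → α) => ∏ i, q i (z i) (w i)) = fun (z w : Fin (m + 1) → α) =>
        (fun (p r : α × (Fin m → α)) => q 0 p.1 r.1 * ∏ i : Fin m, q i.succ (p.2 i) (r.2 i))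
          ((Fin.consEquiv (fun _ : Fin (m + 1) => α)).symm z) ((Fin.consEquiv (fun _ : Fin (m + 1) => α)).symm w) := by
      funext z w
      rw [Fin.prod_univ_succ]
      rfl
    rw [e]
    exact h2

private theorem t3_sum {α : Type*} [Fintype α] [DecidableEq α] (s : Finset α) (κ : ℝ) (h : α → α → ℝ) :
    ∑ x, ∑ y, (if x ∈ s ∧ y ∈ s ∧ x ≠ y then κ else 0) * h x y
      = κ * ((∑ x ∈ s, ∑ y ∈ s, h x y) - ∑ x ∈ s, h x x) := by
  have e1 : ∀ x, ∑ y, (if x ∈ s ∧ y ∈ s ∧ x ≠ y then κ else 0) * h x y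
      = if x ∈ s then κ * ((∑ y ∈ s, h x y) - h x x) else 0 := by
    intro x
    by_cases hx : x ∈ s
    · rw [if_pos hx]
      have e2 : ∀ y, (if x ∈ s ∧ y ∈ s ∧ x ≠ y then κ else 0) * h x y
          = (if y ∈ s then κ * h x y else 0) - (if x = y then κ * h x y else 0) := by
        intro y
        by_cases hy : y ∈ s
        · by_cases hxy : x = y
          · subst hxy
            simp [hx]
          · simp [hx, hy, hxy]
        · have hxy : x ≠ y := fun h => hy (h ▸ hx)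
          simp [hy, hxy]
      simp only [e2]
      rw [Finset.sum_sub_distrib, Finset.sum_ite_mem, Finset.univ_inter, Finset.sum_ite_eq, if_pos (Finset.mem_univ x),
        ← Finset.mul_sum]
      ring
    · rw [if_neg hx]
      refine Finset.sum_eq_zero fun y _ => ?_
      simp [hx]
  simp only [e1]
  rw [Finset.sum_ite_mem, Finset.univ_inter, ← Finset.mul_sum, Finset.sum_sub_distrib]

/-- [t3] One row: the pair is uniform over the ordered pairs of distinct elements of the `N`-set `s`.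
Proof: `eB = (∑f ∑g - ∑fg)/(N(N-1))`, `eL = (∑ f)/N`, `eR = (∑ g)/N`: the covariance is `-(Cov of f, g uniform)/(N-1)`, and
`|Cov| ≤ (Var f + Var g)/2` (`∑ ((f - mean f) ± (g - mean g))² ≥ 0`). -/
theorem cov_distinct {α : Type*} [Fintype α] [DecidableEq α] (s : Finset α) (hs : 2 ≤ s.card) :
    Cov (1 / ((s.card : ℝ) - 1)) (fun x y => if x ∈ s ∧ y ∈ s ∧ x ≠ y then
      1 / ((s.card : ℝ) * ((s.card : ℝ) - 1)) else 0) := by

  have hN : (2 : ℝ) ≤ (s.card : ℝ) := by exact_mod_cast hs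
  set N : ℝ := (s.card : ℝ) with hNdef
  have hN0 : 0 < N := by linarith
  have hN1 : 0 < N - 1 := by linarith
  set κ : ℝ := 1 / (N * (N - 1)) with hκ
  have hκ0 : 0 ≤ κ := by positivity
  have key := t3_sum s κ
  have kL : ∀ F : α → ℝ, eL (fun x y => if x ∈ s ∧ y ∈ s ∧ x ≠ y then κ else 0) F = (∑ x ∈ s, F x) / N := by
    intro F
    have h1 := key fun x _ => F x
    unfold eL
    rw [h1]
    have h2 : ∑ x ∈ s, ∑ _y ∈ s, F x = N * ∑ x ∈ s, F x := by
      simp only [Finset.sum_const, nsmul_eq_mul]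
      rw [← Finset.mul_sum]
    rw [h2, hκ]
    field_simp
  have kR : ∀ G : α → ℝ, eR (fun x y => if x ∈ s ∧ y ∈ s ∧ x ≠ y then κ else 0) G = (∑ x ∈ s, G x) / N := by
    intro G
    have h1 := key fun _ y => G y
    unfold eR
    rw [h1]
    have h2 : ∑ _x ∈ s, ∑ y ∈ s, G y = N * ∑ x ∈ s, G x := by
      rw [Finset.sum_const, nsmul_eq_mul]
    rw [h2, hκ]
    field_simp
  have kB : ∀ F G : α → ℝ, eB (fun x y => if x ∈ s ∧ y ∈ s ∧ x ≠ y then κ else 0) F G
      = κ * ((∑ x ∈ s, F x) * (∑ x ∈ s, G x) - ∑ x ∈ s, F x * G x) := by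
    intro F G
    have h1 := key fun x y => F x * G y
    unfold eB
    rw [h1, Finset.sum_mul_sum]
  refine ⟨fun x y => ?_, ?_, fun F G => ?_⟩
  · split_ifs
    · exact hκ0
    · exact le_refl _
  · have h1 := kL fun _ => 1
    unfold eL at h1
    simp only [mul_one] at h1
    rw [h1, Finset.sum_const, nsmul_eq_mul, mul_one, ← hNdef, div_self hN0.ne']
  · rw [kL, kR, kB, kL, kR]
    set a := ∑ x ∈ s, F x with ha
    set b := ∑ x ∈ s, G x with hb
    set c := ∑ x ∈ s, F x * G x with hc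
    set A := ∑ x ∈ s, F x ^ 2 with hA
    set B := ∑ x ∈ s, G x ^ 2 with hB
    have p1 : (a + b) ^ 2 ≤ N * (A + 2 * c + B) := by
      have h1 := sq_sum_le_card_mul_sum_sq (s := s) (f := fun x => F x + G x)
      have h2 : ∑ x ∈ s, (F x + G x) = a + b := by rw [Finset.sum_add_distrib]
      have h3 : ∑ x ∈ s, (F x + G x) ^ 2 = A + 2 * c + B := by
        rw [hA, hB, hc, Finset.mul_sum, ← Finset.sum_add_distrib, ← Finset.sum_add_distrib]
        refine Finset.sum_congr rfl fun x _ => ?_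
        ring
      rw [h2, h3] at h1
      exact h1
    have p2 : (a - b) ^ 2 ≤ N * (A - 2 * c + B) := by
      have h1 := sq_sum_le_card_mul_sum_sq (s := s) (f := fun x => F x - G x)
      have h2 : ∑ x ∈ s, (F x - G x) = a - b := by rw [Finset.sum_sub_distrib]
      have h3 : ∑ x ∈ s, (F x - G x) ^ 2 = A - 2 * c + B := by
        rw [hA, hB, hc, Finset.mul_sum, ← Finset.sum_sub_distrib, ← Finset.sum_add_distrib]
        refine Finset.sum_congr rfl fun x _ => ?_
        ring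
      rw [h2, h3] at h1
      exact h1
    have e1 : κ * (a * b - c) - a / N * (b / N) = (a * b - N * c) / (N ^ 2 * (N - 1)) := by
      rw [hκ]
      field_simp
      ring
    have e2 : 1 / (N - 1) / 2 * (A / N - (a / N) ^ 2 + (B / N - (b / N) ^ 2))
        = ((N * A - a ^ 2 + (N * B - b ^ 2)) / 2) / (N ^ 2 * (N - 1)) := by
      field_simp
    rw [e1, e2, abs_div, abs_of_pos (show 0 < N ^ 2 * (N - 1) by positivity)]
    refine div_le_div_of_nonneg_right ?_ (by positivity)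
    rw [abs_le]
    constructor <;> nlinarith

/-- [t3] One row, left entry constant. -/
theorem cov_left {α : Type*} [Fintype α] [DecidableEq α] {ρ : ℝ} (hρ : 0 ≤ ρ) (a : α) (q : α → α → ℝ)
    (h0 : ∀ x y, 0 ≤ q x y) (h1 : ∑ x, ∑ y, q x y = 1) (h : ∀ x y, x ≠ a → q x y = 0) : Cov ρ q := by

  have hq : ∀ x y (u v : ℝ), (x = a → u = v) → q x y * u = q x y * v := by
    intro x y u v huv
    by_cases hx : x = a
    · rw [huv hx]
    · rw [h x y hx, zero_mul, zero_mul]
  have kL : ∀ F : α → ℝ, eL q F = F a := by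
    intro F
    unfold eL
    have e : ∀ x y, q x y * F x = q x y * F a := fun x y => hq x y _ _ fun hx => by rw [hx]
    simp only [e, ← Finset.sum_mul]
    rw [h1, one_mul]
  have kB : ∀ F G : α → ℝ, eB q F G = F a * eR q G := by
    intro F G
    unfold eB eR
    have e : ∀ x y, q x y * (F x * G y) = F a * (q x y * G y) := fun x y => by
      rw [hq x y (F x * G y) (F a * G y) fun hx => by rw [hx]]
      ring
    simp only [e, ← Finset.mul_sum]
  refine ⟨h0, h1, fun F G => ?_⟩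
  rw [kB, kL, kL, sub_self, abs_zero, sub_self, zero_add]
  have hv : 0 ≤ eR q (fun y => G y ^ 2) - eR q G ^ 2 := by
    have h2 : 0 ≤ ∑ x, ∑ y, q x y * (G y - eR q G) ^ 2 :=
      Finset.sum_nonneg fun x _ => Finset.sum_nonneg fun y _ => mul_nonneg (h0 x y) (sq_nonneg _)
    have h3 : ∑ x, ∑ y, q x y * (G y - eR q G) ^ 2 = eR q (fun y => G y ^ 2) - eR q G ^ 2 := by
      set m := eR q G with hm
      have e : ∀ x y, q x y * (G y - m) ^ 2 = q x y * G y ^ 2 - 2 * m * (q x y * G y) + m ^ 2 * q x y := by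
        intro x y
        ring
      simp only [e, Finset.sum_add_distrib, Finset.sum_sub_distrib, ← Finset.mul_sum]
      rw [h1]
      have e3 : ∑ x, ∑ y, q x y * G y = m := rfl
      have e4 : ∑ x, ∑ y, q x y * G y ^ 2 = eR q (fun y => G y ^ 2) := rfl
      rw [e3, e4]
      ring
    rw [← h3]
    exact h2
  exact mul_nonneg (by linarith) hv

/-- [t3] One row, right entry constant. -/
theorem cov_right {α : Type*} [Fintype α] [DecidableEq α] {ρ : ℝ} (hρ : 0 ≤ ρ) (a : α) (q : α → α → ℝ)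
    (h0 : ∀ x y, 0 ≤ q x y) (h1 : ∑ x, ∑ y, q x y = 1) (h : ∀ x y, y ≠ a → q x y = 0) : Cov ρ q := by

  have hq : ∀ x y (u v : ℝ), (y = a → u = v) → q x y * u = q x y * v := by
    intro x y u v huv
    by_cases hy : y = a
    · rw [huv hy]
    · rw [h x y hy, zero_mul, zero_mul]
  have kR : ∀ G : α → ℝ, eR q G = G a := by
    intro G
    unfold eR
    have e : ∀ x y, q x y * G y = q x y * G a := fun x y => hq x y _ _ fun hy => by rw [hy]
    simp only [e, ← Finset.sum_mul]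
    rw [h1, one_mul]
  have kB : ∀ F G : α → ℝ, eB q F G = eL q F * G a := by
    intro F G
    unfold eB eL
    have e : ∀ x y, q x y * (F x * G y) = (q x y * F x) * G a := fun x y => by
      rw [hq x y (F x * G y) (F x * G a) fun hy => by rw [hy]]
      ring
    simp only [e, ← Finset.sum_mul]
  refine ⟨h0, h1, fun F G => ?_⟩
  rw [kB, kR, kR, sub_self, abs_zero, sub_self, add_zero]
  have hv : 0 ≤ eL q (fun y => F y ^ 2) - eL q F ^ 2 := by
    have h2 : 0 ≤ ∑ x, ∑ y, q x y * (F x - eL q F) ^ 2 :=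
      Finset.sum_nonneg fun x _ => Finset.sum_nonneg fun y _ => mul_nonneg (h0 x y) (sq_nonneg _)
    have h3 : ∑ x, ∑ y, q x y * (F x - eL q F) ^ 2 = eL q (fun y => F y ^ 2) - eL q F ^ 2 := by
      set m := eL q F with hm
      have e : ∀ x y, q x y * (F x - m) ^ 2 = q x y * F x ^ 2 - 2 * m * (q x y * F x) + m ^ 2 * q x y := by
        intro x y
        ring
      simp only [e, Finset.sum_add_distrib, Finset.sum_sub_distrib, ← Finset.mul_sum]
      rw [h1]
      have e3 : ∑ x, ∑ y, q x y * F x = m := rfl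
      have e4 : ∑ x, ∑ y, q x y * F x ^ 2 = eL q (fun y => F y ^ 2) := rfl
      rw [e3, e4]
      ring
    rw [← h3]
    exact h2
  exact mul_nonneg (by linarith) hv

end Pool.Agent.RGi
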