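import Pool.Agent.RGi.Exi

/-!
# Repair (section 6 of the text)
-/

set_option autoImplicit false

namespace Pool.Agent.RGi

open Finset Pool.Agent.RotaP

namespace Cd

variable {n : ℕ} (D : Cd n)

/-- total corank, in `ℕ` -/
def tot (σ : Fin n → Equiv.Perm (Fin n)) : ℕ := ∑ c, (n - D.rk (colm σ c))

/-- The state of the repair: `σ` the original arrangement, `τ` the current one, `U` the used columns. -/
structure St (σ τ : Fin n → Equiv.Perm (Fin n)) (U : Finset (Fin n)) : Prop where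
  mem : τ ∈ D.Ar
  used : ∀ c ∈ U, D.rk (colm σ c) = n ∧ D.rk (colm τ c) = n
  ch : ∀ c, c ∉ U → (univ.filter (fun i => τ i c ≠ σ i c)).card + D.rk (colm σ c) ≤ D.rk (colm τ c)
  cnt : U.card + 2 * D.tot τ ≤ 2 * D.tot σ

/-- the columns which must not be used as helpers: used ones and originally dependent ones -/
def Bd (σ : Fin n → Equiv.Perm (Fin n)) (U : Finset (Fin n)) : Finset (Fin n) :=
  U ∪ univ.filter (fun c => D.rk (colm σ c) < n)

private theorem q1_cor (σ : Fin n → Equiv.Perm (Fin n)) : D.cor σ = (D.tot σ : ℝ) := by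
  unfold cor tot
  rw [Nat.cast_sum]
  refine sum_congr rfl (fun c _ => ?_)
  rw [Nat.cast_sub (D.rk_le _)]

/-- [q1] `|U| ≤ 2 tot σ`, the number of dependent columns is `≤ tot σ = cor σ ≤ n / (2^13 (k+1)) `. -/
theorem card_Bd {σ τ : Fin n → Equiv.Perm (Fin n)} {U : Finset (Fin n)} (hσ : D.Nice σ) (h : D.St σ τ U) :
    2 ^ 11 * (D.k + 1) * (D.Bd σ U).card ≤ n := by
  have h1 := hσ.cor
  have h2 := D.q1_cor σ
  rw [h2] at h1
  have h3 : 2 ^ 13 * (D.k + 1) * D.tot σ ≤ n := by exact_mod_cast h1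
  have h4 : (D.Bd σ U).card ≤ U.card + (univ.filter (fun c => D.rk (colm σ c) < n)).card := card_union_le _ _
  have h5 : (univ.filter (fun c => D.rk (colm σ c) < n)).card ≤ D.tot σ := by
    unfold tot
    rw [card_eq_sum_ones, sum_filter]
    refine sum_le_sum (fun c _ => ?_)
    split_ifs with hc <;> omega
  have h6 := h.cnt
  have h7 : (D.Bd σ U).card ≤ 4 * D.tot σ := by omega
  calc 2 ^ 11 * (D.k + 1) * (D.Bd σ U).card ≤ 2 ^ 11 * (D.k + 1) * (4 * D.tot σ) := Nat.mul_le_mul_left _ h7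
    _ = 2 ^ 13 * (D.k + 1) * D.tot σ := by ring
    _ ≤ n := h3

/-- [q1] an unused independent column is unchanged. -/
theorem same {σ τ : Fin n → Equiv.Perm (Fin n)} {U : Finset (Fin n)} (h : D.St σ τ U) {c : Fin n}
    (hc : c ∉ D.Bd σ U) : ∀ i, τ i c = σ i c := by
  intro i
  unfold Bd at hc
  rw [mem_union, not_or, mem_filter] at hc
  have h1 : D.rk (colm σ c) = n := by
    have := D.rk_le (colm σ c)
    by_contra h0
    exact hc.2 ⟨mem_univ _, by omega⟩
  have h2 := h.ch c hc.1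
  have h3 := D.rk_le (colm τ c)
  have h4 : (univ.filter (fun i => τ i c ≠ σ i c)).card = 0 := by omega
  rw [card_eq_zero, filter_eq_empty_iff] at h4
  have := h4 (mem_univ i)
  exact not_not.mp this

private theorem q2_rows (rows : Finset (Fin n)) :
    (univ.filter (fun e : Fin n × Fin n => e.1 ∈ rows)).card = rows.card * n := by
  have : univ.filter (fun e : Fin n × Fin n => e.1 ∈ rows) = rows ×ˢ (univ : Finset (Fin n)) := by
    ext e
    simp
  rw [this, card_product, card_univ, Fintype.card_fin]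

/-- [q2] CHOICE OF THE ROW AND THE FIRST HELPER.  Proof: by `nh` (`X = Zs (colm τ c)`), at least `n²/(4(k+1))` elements `(m, x)`, `m ∈ F c`,
`x` free, lie outside the closure; each is the original entry `(m, σ m w)` of a unique column `w` with `(m, w) ∉ Q`.  Excluded are
the `m` with `τ m c ≠ σ m c` (`≤ k` by `ch`, `le_rk`), the coloops `m` (`≤ k`, `card_coloop`), the `m` with `N ≤ 4 Xb m (σ m c) σ` (`≤ N/(16(k+1))`,
`Nice.high`), each with `≤ n` columns; the `w ∈ Bd` (`card_Bd`) with `≤ n` rows; the pairs counted in `tt` (`Nice.tt`).  In total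
`(2k + n/(16(k+1)) + n/(2^11 (k+1))) n + n²/(2^12 (k+1)) < n²/(4(k+1))`. -/
theorem choice1 {σ τ : Fin n → Equiv.Perm (Fin n)} {U : Finset (Fin n)} (hσ : D.Nice σ) (h : D.St σ τ U)
    {c : Fin n} (hc : D.rk (colm τ c) < n) :
    ∃ m w : Fin n, m ∈ D.F c ∧ w ∈ D.Gam m ∧ w ∉ D.Bd σ U ∧ τ m c = σ m c ∧
      D.R.r (Ze (colm τ c) m) = D.rk (colm τ c) ∧ (m, σ m w) ∉ cl D.R (Zs (colm τ c)) ∧
      4 * D.Xb m (σ m c) σ < D.N ∧ 4 * ∑ x ∈ D.Gam m, D.rej m x (colm σ w) < D.N := by
  classical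
  by_contra hno
  push Not at hno
  have hcU : c ∉ U := fun hcU => by
    have := (h.used c hcU).2
    omega
  -- the five exceptional sets
  obtain ⟨r1, hr1⟩ : ∃ r1 : Finset (Fin n), r1 = univ.filter (fun i => τ i c ≠ σ i c) := ⟨_, rfl⟩
  obtain ⟨r2, hr2⟩ : ∃ r2 : Finset (Fin n), r2 = (D.F c).filter (fun m => D.R.r (Ze (colm τ c) m) < D.rk (colm τ c)) :=
    ⟨_, rfl⟩
  obtain ⟨r3, hr3⟩ : ∃ r3 : Finset (Fin n), r3 = (D.F c).filter (fun j => (D.N : ℝ) ≤ 4 * D.Xb j (σ j c) σ) :=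
    ⟨_, rfl⟩
  obtain ⟨B4, hB4⟩ : ∃ B4 : Finset (Fin n × Fin n), B4 = univ.filter (fun e => (σ e.1).symm e.2 ∈ D.Bd σ U) :=
    ⟨_, rfl⟩
  obtain ⟨B5, hB5⟩ : ∃ B5 : Finset (Fin n × Fin n), B5 = univ.filter (fun e =>
      (σ e.1).symm e.2 ∈ D.Gam e.1 ∧
      (D.N : ℝ) ≤ 4 * ∑ x ∈ D.Gam e.1, D.rej e.1 x (colm σ ((σ e.1).symm e.2))) := ⟨_, rfl⟩
  obtain ⟨Out, hOut⟩ : ∃ Out : Finset (Fin n × Fin n), Out =
    univ.filter (fun e : Fin n × Fin n => (e.1, c) ∉ D.Q ∧ e ∉ D.Q ∧ e ∉ cl D.R (Zs (colm τ c))) := ⟨_, rfl⟩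
  have hNH := D.NH c (Zs (colm τ c)) (D.core_Zs (D.colm_mem h.mem c)) hc
  rw [← hOut] at hNH
  have hsub : Out ⊆ univ.filter (fun e : Fin n × Fin n => e.1 ∈ r1) ∪
      (univ.filter (fun e : Fin n × Fin n => e.1 ∈ r2) ∪
      (univ.filter (fun e : Fin n × Fin n => e.1 ∈ r3) ∪ (B4 ∪ B5))) := by
    intro e he
    rw [hOut, mem_filter] at he
    obtain ⟨_, he1, he2, he3⟩ := he
    simp only [mem_union, mem_filter, mem_univ, true_and]
    by_contra hcon
    push Not at hcon
    obtain ⟨h1, h2, h3, h4, h5⟩ := hcon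
    have hF : e.1 ∈ D.F c := D.mem_F.mpr he1
    have h1' : τ e.1 c = σ e.1 c := by
      by_contra hne
      exact h1 (by rw [hr1]; exact mem_filter.mpr ⟨mem_univ _, hne⟩)
    have h2' : D.R.r (Ze (colm τ c) e.1) = D.rk (colm τ c) := by
      rcases D.rk_cases (colm τ c) e.1 with h | h
      · exact h.1
      · exact absurd (by rw [hr2]; exact mem_filter.mpr ⟨hF, by omega⟩) h2
    have h3' : 4 * D.Xb e.1 (σ e.1 c) σ < D.N := by
      by_contra hne
      exact h3 (by rw [hr3]; exact mem_filter.mpr ⟨hF, not_lt.mp hne⟩)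
    have h4' : (σ e.1).symm e.2 ∉ D.Bd σ U := by
      intro hne
      exact h4 (by rw [hB4]; exact mem_filter.mpr ⟨mem_univ _, hne⟩)
    have hw : (σ e.1).symm e.2 ∈ D.Gam e.1 := by
      refine mem_filter.mpr ⟨mem_univ _, ?_⟩
      rw [← D.Ar_free hσ.mem, Equiv.apply_symm_apply]
      exact he2
    have h5' := hno e.1 ((σ e.1).symm e.2) hF hw h4' h1' h2' (by rw [Equiv.apply_symm_apply]; exact he3) h3'
    exact h5 (by rw [hB5]; exact mem_filter.mpr ⟨mem_univ _, hw, h5'⟩)
  -- the bounds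
  have hb1 : r1.card ≤ D.k := by
    have e1 := h.ch c hcU
    have e2 := D.le_rk (colm σ c)
    have e3 := D.rk_le (colm τ c)
    rw [← hr1] at e1
    omega
  have hb2 : r2.card ≤ D.k := by
    have := D.card_coloop (c := c) hc
    rw [← hr2] at this
    omega
  have hb3 : 16 * ((D.k : ℝ) + 1) * r3.card ≤ D.N := by
    have := hσ.high c
    rw [← hr3] at this
    exact this
  have hb4 : 2 ^ 11 * (D.k + 1) * B4.card ≤ n * n := by
    have e1 : B4.card ≤ n * (D.Bd σ U).card := by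
      have : B4.card ≤ ((univ : Finset (Fin n)) ×ˢ (D.Bd σ U)).card := by
        apply card_le_card_of_injOn (fun e => (e.1, (σ e.1).symm e.2))
        · intro e he
          rw [mem_coe, hB4, mem_filter] at he
          exact mem_coe.mpr (mem_product.mpr ⟨mem_univ _, he.2⟩)
        · intro e1 _ e2 _ h12
          rw [Prod.mk.injEq] at h12
          obtain ⟨ha, hb⟩ := h12
          rw [ha] at hb
          exact Prod.ext ha ((σ e2.1).symm.injective hb)
      rwa [card_product, card_univ, Fintype.card_fin] at this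
    have e2 := D.card_Bd hσ h
    calc 2 ^ 11 * (D.k + 1) * B4.card ≤ 2 ^ 11 * (D.k + 1) * (n * (D.Bd σ U).card) := Nat.mul_le_mul_left _ e1
      _ = n * (2 ^ 11 * (D.k + 1) * (D.Bd σ U).card) := by ring
      _ ≤ n * n := Nat.mul_le_mul_left _ e2
  have hb5 : 2 ^ 12 * ((D.k : ℝ) + 1) * B5.card ≤ n * D.N := by
    refine le_trans ?_ hσ.tt
    apply mul_le_mul_of_nonneg_left _ (by positivity)
    -- B5.card ≤ tt
    have e0 : D.tt σ = (((univ : Finset (Fin n)).sigma (fun c => (D.F c).filter (fun j =>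
        (D.N : ℝ) ≤ 4 * ∑ x ∈ D.Gam j, D.rej j x (colm σ c)))).card : ℝ) := by
      rw [card_sigma, tt]
      push_cast
      apply sum_congr rfl
      intro c _
      rw [sum_boole]
    rw [e0]
    have : B5.card ≤ ((univ : Finset (Fin n)).sigma (fun c => (D.F c).filter (fun j =>
        (D.N : ℝ) ≤ 4 * ∑ x ∈ D.Gam j, D.rej j x (colm σ c)))).card := by
      apply card_le_card_of_injOn (fun e => (⟨(σ e.1).symm e.2, e.1⟩ : (_ : Fin n) × Fin n))
      · intro e he
        rw [mem_coe, hB5, mem_filter] at he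
        refine mem_coe.mpr (mem_sigma.mpr ⟨mem_univ _, mem_filter.mpr ⟨?_, he.2.2⟩⟩)
        exact D.mem_F.mpr (mem_filter.mp he.2.1).2
      · intro e1 _ e2 _ h12
        simp only [Sigma.mk.injEq, heq_eq_eq] at h12
        obtain ⟨hb, ha⟩ := h12
        rw [ha] at hb
        exact Prod.ext ha ((σ e2.1).symm.injective hb)
    exact_mod_cast this
  have hcard : Out.card ≤ r1.card * n + (r2.card * n + (r3.card * n + (B4.card + B5.card))) := by
    refine (card_le_card hsub).trans ((card_union_le _ _).trans ?_)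
    rw [q2_rows]
    apply Nat.add_le_add_left
    refine (card_union_le _ _).trans ?_
    rw [q2_rows]
    apply Nat.add_le_add_left
    refine (card_union_le _ _).trans ?_
    rw [q2_rows]
    apply Nat.add_le_add_left
    exact card_union_le _ _
  -- final computation
  have hk1 : (1 : ℝ) ≤ D.k := by exact_mod_cast D.k1
  have hbig : (2 : ℝ) ^ 40 * ((D.k : ℝ) + 1) ^ 3 ≤ n := by exact_mod_cast D.big
  have hNn : (D.N : ℝ) ≤ n := by
    have := D.N_add
    have h2 : D.N ≤ n := by omega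
    exact_mod_cast h2
  have hK : (1 : ℝ) ≤ (D.k : ℝ) + 1 := by linarith
  have hn0 : (0 : ℝ) < n := by
    have : (0 : ℝ) < 2 ^ 40 * ((D.k : ℝ) + 1) ^ 3 := by positivity
    linarith
  have hNH' : (n : ℝ) * n ≤ 4 * ((D.k : ℝ) + 1) * Out.card := by exact_mod_cast hNH
  have hcard' : (Out.card : ℝ) ≤ r1.card * n + (r2.card * n + (r3.card * n + (B4.card + B5.card))) := by
    exact_mod_cast hcard
  have hb1' : (r1.card : ℝ) ≤ D.k := by exact_mod_cast hb1
  have hb2' : (r2.card : ℝ) ≤ D.k := by exact_mod_cast hb2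
  have hb4' : 2 ^ 11 * ((D.k : ℝ) + 1) * B4.card ≤ n * n := by exact_mod_cast hb4
  have g1 : 4 * ((D.k : ℝ) + 1) * (r1.card * n) ≤ (n : ℝ) * n / 64 := by
    have : 256 * ((D.k : ℝ) + 1) * r1.card ≤ n := by
      calc 256 * ((D.k : ℝ) + 1) * r1.card ≤ 256 * ((D.k : ℝ) + 1) * ((D.k : ℝ) + 1) := by
            apply mul_le_mul_of_nonneg_left _ (by positivity)
            linarith
        _ ≤ 2 ^ 40 * ((D.k : ℝ) + 1) ^ 3 := by nlinarith [sq_nonneg ((D.k : ℝ) + 1), pow_pos (by linarith : (0 : ℝ) < (D.k : ℝ) + 1) 3, mul_le_mul_of_nonneg_left hK (by positivity : (0 : ℝ) ≤ ((D.k : ℝ) + 1) ^ 2)]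
        _ ≤ n := hbig
    nlinarith
  have g2 : 4 * ((D.k : ℝ) + 1) * (r2.card * n) ≤ (n : ℝ) * n / 64 := by
    have : 256 * ((D.k : ℝ) + 1) * r2.card ≤ n := by
      calc 256 * ((D.k : ℝ) + 1) * r2.card ≤ 256 * ((D.k : ℝ) + 1) * ((D.k : ℝ) + 1) := by
            apply mul_le_mul_of_nonneg_left _ (by positivity)
            linarith
        _ ≤ 2 ^ 40 * ((D.k : ℝ) + 1) ^ 3 := by nlinarith [sq_nonneg ((D.k : ℝ) + 1), pow_pos (by linarith : (0 : ℝ) < (D.k : ℝ) + 1) 3, mul_le_mul_of_nonneg_left hK (by positivity : (0 : ℝ) ≤ ((D.k : ℝ) + 1) ^ 2)]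
        _ ≤ n := hbig
    nlinarith
  have g3 : 4 * ((D.k : ℝ) + 1) * (r3.card * n) ≤ (n : ℝ) * n / 4 := by
    have : 16 * ((D.k : ℝ) + 1) * r3.card ≤ n := hb3.trans hNn
    nlinarith
  have g4 : 4 * ((D.k : ℝ) + 1) * B4.card ≤ (n : ℝ) * n / 512 := by linarith
  have g5 : 4 * ((D.k : ℝ) + 1) * B5.card ≤ (n : ℝ) * n / 1024 := by
    have : (n : ℝ) * D.N ≤ n * n := mul_le_mul_of_nonneg_left hNn hn0.le
    linarith
  have hfin : (n : ℝ) * n ≤ n * n / 64 + n * n / 64 + n * n / 4 + n * n / 512 + n * n / 1024 := by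
    calc (n : ℝ) * n ≤ 4 * ((D.k : ℝ) + 1) * Out.card := hNH'
      _ ≤ 4 * ((D.k : ℝ) + 1) * (r1.card * n + (r2.card * n + (r3.card * n + (B4.card + B5.card)))) :=
          mul_le_mul_of_nonneg_left hcard' (by positivity)
      _ = 4 * ((D.k : ℝ) + 1) * (r1.card * n) + 4 * ((D.k : ℝ) + 1) * (r2.card * n) +
          4 * ((D.k : ℝ) + 1) * (r3.card * n) + 4 * ((D.k : ℝ) + 1) * B4.card + 4 * ((D.k : ℝ) + 1) * B5.card := by ring
      _ ≤ _ := by linarith
  have : (0 : ℝ) < n * n := mul_pos hn0 hn0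
  linarith

private theorem q3_rk {j x : Fin n} {z : Fin n → Fin n} (h : ¬ D.rej j x z = 1) :
    D.rk (Function.update z j x) = n := by
  unfold rej at h
  have h1 := D.rk_le (Function.update z j x)
  by_contra h0
  apply h
  rw [if_pos (by omega)]

private theorem q3_card {α : Type*} [DecidableEq α] (G : Finset α) (j : α → Fin n) (x : α → Fin n)
    (z : α → Fin n → Fin n) [DecidablePred fun v => D.rej (j v) (x v) (z v) = 1] :
    ((G.filter (fun v => D.rej (j v) (x v) (z v) = 1)).card : ℝ) = ∑ v ∈ G, D.rej (j v) (x v) (z v) := by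
  rw [card_eq_sum_ones, sum_filter, Nat.cast_sum]
  refine sum_congr rfl (fun v _ => ?_)
  rcases D.rej_cases (j v) (x v) (z v) with h | h
  · rw [if_neg (by rw [h]; norm_num), h]; simp
  · rw [if_pos h, h]; simp

/-- [q3] CHOICE OF THE SECOND HELPER.  Proof: among the `N` columns `v ∈ Gam m` fewer than `N/4` have `rej m (σ m c) (colm σ v) = 1`, fewer than
`N/4` have `rej m (σ m v) (colm σ w) = 1` (`v ↦ σ m v` is a bijection of `Gam m`), `|Bd| + 1 < N/2`. -/
theorem choice2 {σ τ : Fin n → Equiv.Perm (Fin n)} {U : Finset (Fin n)} (hσ : D.Nice σ) (h : D.St σ τ U)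
    {c m w : Fin n} (hm : m ∈ D.F c) (h1 : 4 * D.Xb m (σ m c) σ < D.N)
    (h2 : 4 * ∑ x ∈ D.Gam m, D.rej m x (colm σ w) < D.N) :
    ∃ v ∈ D.Gam m, v ∉ D.Bd σ U ∧ v ≠ w ∧
      D.rk (Function.update (colm σ v) m (σ m c)) = n ∧ D.rk (Function.update (colm σ w) m (σ m v)) = n := by
  classical
  have hB := D.card_Bd hσ h
  have hn := D.n_le
  have hN := D.N_big
  set A1 : Finset (Fin n) := (D.Gam m).filter (fun v => D.rej m (σ m c) (colm σ v) = 1) with hA1
  set A2 : Finset (Fin n) := (D.Gam m).filter (fun v => D.rej m (σ m v) (colm σ w) = 1) with hA2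
  have e1 : (A1.card : ℝ) = D.Xb m (σ m c) σ := by
    unfold Xb
    rw [hA1, D.q3_card]
  have e2 : (A2.card : ℝ) = ∑ x ∈ D.Gam m, D.rej m x (colm σ w) := by
    rw [hA2, D.q3_card (D.Gam m) (fun v => (m : Fin n)) (fun v => σ m v) (fun v => colm σ w)]
    refine sum_bij (fun v _ => σ m v) ?_ ?_ ?_ ?_
    · intro v hv
      unfold Gam at hv ⊢
      rw [mem_filter] at hv ⊢
      exact ⟨mem_univ _, fun h0 => hv.2 ((D.Ar_free hσ.mem).mp h0)⟩
    · intro a _ b _ hab
      exact (σ m).injective hab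
    · intro x hx
      refine ⟨(σ m).symm x, ?_, by simp⟩
      unfold Gam at hx ⊢
      rw [mem_filter] at hx ⊢
      refine ⟨mem_univ _, fun h0 => hx.2 ?_⟩
      have := (D.Ar_free hσ.mem (i := m) (c := (σ m).symm x)).mpr h0
      rwa [Equiv.apply_symm_apply] at this
    · intro v _
      rfl
  rw [← e1] at h1
  rw [← e2] at h2
  have h1' : 4 * A1.card < D.N := by exact_mod_cast h1
  have h2' : 4 * A2.card < D.N := by exact_mod_cast h2
  have hG := D.card_Gam m
  have hk : 1 ≤ (D.k + 1) ^ 3 := Nat.one_le_pow _ _ (by omega)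
  have hN2 : 2 ^ 39 ≤ D.N := le_trans (le_mul_of_one_le_right (Nat.zero_le _) hk) hN
  have hB2 : 2 ^ 11 * (D.Bd σ U).card ≤ n := by
    refine le_trans ?_ hB
    calc 2 ^ 11 * (D.Bd σ U).card = 2 ^ 11 * 1 * (D.Bd σ U).card := by ring
      _ ≤ 2 ^ 11 * (D.k + 1) * (D.Bd σ U).card :=
        Nat.mul_le_mul_right _ (Nat.mul_le_mul_left _ (by omega))
  have hcard : (A1 ∪ A2 ∪ (D.Bd σ U) ∪ {w}).card < (D.Gam m).card := by
    have u1 := card_union_le (A1 ∪ A2 ∪ (D.Bd σ U)) {w}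
    have u2 := card_union_le (A1 ∪ A2) (D.Bd σ U)
    have u3 := card_union_le A1 A2
    rw [card_singleton] at u1
    rw [hG]
    omega
  obtain ⟨v, hv, hv2⟩ := exists_mem_notMem_of_card_lt_card hcard
  simp only [mem_union, mem_singleton, not_or] at hv2
  obtain ⟨⟨⟨n1, n2⟩, n3⟩, n4⟩ := hv2
  refine ⟨v, hv, n3, n4, ?_, ?_⟩
  · have : ¬ D.rej m (σ m c) (colm σ v) = 1 := fun h0 => n1 (by rw [hA1, mem_filter]; exact ⟨hv, h0⟩)
    exact D.q3_rk this
  · have : ¬ D.rej m (σ m v) (colm σ w) = 1 := fun h0 => n2 (by rw [hA2, mem_filter]; exact ⟨hv, h0⟩)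
    exact D.q3_rk this

/-- [q4] The rotation in row `m`: column `c` gets the entry of `w`, `w` gets the entry of `v`, `v` gets the entry of `c`. -/
theorem rotate {τ : Fin n → Equiv.Perm (Fin n)} (hτ : τ ∈ D.Ar) {m c w v : Fin n} (hm : m ∈ D.F c)
    (hw : w ∈ D.Gam m) (hv : v ∈ D.Gam m) (hcw : c ≠ w) (hcv : c ≠ v) (hwv : w ≠ v) :
    ∃ τ' ∈ D.Ar, colm τ' c = Function.update (colm τ c) m (τ m w) ∧
      colm τ' w = Function.update (colm τ w) m (τ m v) ∧
      colm τ' v = Function.update (colm τ v) m (τ m c) ∧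
      ∀ d, d ≠ c → d ≠ w → d ≠ v → colm τ' d = colm τ d := by
  have q1 : (m, c) ∉ D.Q := D.mem_F.mp hm
  have q2 : (m, w) ∉ D.Q := (mem_filter.mp hw).2
  have q3 : (m, v) ∉ D.Q := (mem_filter.mp hv).2
  set p : Equiv.Perm (Fin n) := Equiv.swap c w * Equiv.swap w v with hp
  have pc : p c = w := by
    rw [hp, Equiv.Perm.mul_apply, Equiv.swap_apply_of_ne_of_ne hcw hcv, Equiv.swap_apply_left]
  have pw : p w = v := by
    rw [hp, Equiv.Perm.mul_apply, Equiv.swap_apply_left, Equiv.swap_apply_of_ne_of_ne hcv.symm hwv.symm]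
  have pv : p v = c := by
    rw [hp, Equiv.Perm.mul_apply, Equiv.swap_apply_right, Equiv.swap_apply_right]
  have pd : ∀ d, d ≠ c → d ≠ w → d ≠ v → p d = d := by
    intro d h1 h2 h3
    rw [hp, Equiv.Perm.mul_apply, Equiv.swap_apply_of_ne_of_ne h2 h3, Equiv.swap_apply_of_ne_of_ne h1 h2]
  have hcol : ∀ d, colm (Function.update τ m (τ m * p)) d = Function.update (colm τ d) m (τ m (p d)) := by
    intro d
    funext i
    unfold colm
    by_cases hi : i = m
    · subst hi
      rw [Function.update_self, Function.update_self, Equiv.Perm.mul_apply]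
    · rw [Function.update_of_ne hi, Function.update_of_ne hi]
  refine ⟨Function.update τ m (τ m * p), ?_, ?_, ?_, ?_, ?_⟩
  · rw [D.mem_Ar] at hτ ⊢
    intro i d hd
    by_cases hi : i = m
    · subst hi
      rw [Function.update_self, Equiv.Perm.mul_apply, pd d (fun h => q1 (h ▸ hd)) (fun h => q2 (h ▸ hd))
        (fun h => q3 (h ▸ hd))]
      exact hτ _ _ hd
    · rw [Function.update_of_ne hi]
      exact hτ _ _ hd
  · rw [hcol, pc]
  · rw [hcol, pw]
  · rw [hcol, pv]
  · intro d h1 h2 h3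
    rw [hcol, pd d h1 h2 h3]
    exact Function.update_eq_self _ _

/-- [q5] ONE STEP.  Proof: `choice1`, `choice2`, `rotate` (`c ∉ U`, and `c ∈ Bd` so `w, v ≠ c`: if `c ∉ Bd` then `colm τ c = colm σ c` would have rank `n`);
the rank of column `c` grows by one (`rk_update_out`), columns `w`, `v` keep rank `n`, `U' = insert w (insert v U)`. -/
theorem step {σ τ : Fin n → Equiv.Perm (Fin n)} {U : Finset (Fin n)} (hσ : D.Nice σ) (h : D.St σ τ U)
    {c : Fin n} (hc : D.rk (colm τ c) < n) :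
    ∃ τ' U', D.St σ τ' U' ∧ D.tot τ' < D.tot τ := by
  obtain ⟨m, w, hm, hw, hwB, hmc, hZe, hcl, hX, hR⟩ := D.choice1 hσ h hc
  obtain ⟨v, hv, hvB, hvw, hv1, hw1⟩ := D.choice2 hσ h hm hX hR
  have hcU : c ∉ U := fun h0 => by
    have := (h.used c h0).2
    omega
  have hcB : c ∈ D.Bd σ U := by
    by_contra h0
    have h1 := D.same h h0
    have h2 : colm τ c = colm σ c := funext h1
    apply h0
    unfold Bd
    rw [mem_union, mem_filter]
    exact Or.inr ⟨mem_univ _, by rw [← h2]; exact hc⟩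
  have hcw : c ≠ w := fun h0 => hwB (h0 ▸ hcB)
  have hcv : c ≠ v := fun h0 => hvB (h0 ▸ hcB)
  have hBU : ∀ d, d ∉ D.Bd σ U → d ∉ U ∧ D.rk (colm σ d) = n := by
    intro d hd
    unfold Bd at hd
    rw [mem_union, not_or, mem_filter] at hd
    refine ⟨hd.1, ?_⟩
    have := D.rk_le (colm σ d)
    by_contra h0
    exact hd.2 ⟨mem_univ _, by omega⟩
  obtain ⟨τ', hτ', ec, ew, ev, ed⟩ := D.rotate h.mem hm hw hv hcw hcv hvw.symm
  have tw : ∀ i, τ i w = σ i w := D.same h hwB
  have tv : ∀ i, τ i v = σ i v := D.same h hvB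
  have tw' : colm τ w = colm σ w := funext tw
  have tv' : colm τ v = colm σ v := funext tv
  have rw' : D.rk (colm τ' w) = n := by rw [ew, tv m, tw']; exact hw1
  have rv' : D.rk (colm τ' v) = n := by rw [ev, hmc, tv']; exact hv1
  have rc' : D.rk (colm τ' c) = D.rk (colm τ c) + 1 := by
    rw [ec, tw m, D.rk_update_out (fun h0 => hcl (cl_mono D.R (by rw [Zs_insert _ m]; exact subset_insert _ _) h0)), hZe]
  have rw0 : D.rk (colm τ w) = n := by rw [tw']; exact (hBU w hwB).2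
  have rv0 : D.rk (colm τ v) = n := by rw [tv']; exact (hBU v hvB).2
  have htot : D.tot τ' + 1 = D.tot τ := by
    unfold tot
    rw [← add_sum_erase univ _ (mem_univ c), ← add_sum_erase univ (fun c => n - D.rk (colm τ c)) (mem_univ c)]
    have : ∑ x ∈ univ.erase c, (n - D.rk (colm τ' x)) = ∑ x ∈ univ.erase c, (n - D.rk (colm τ x)) := by
      refine sum_congr rfl (fun d hd => ?_)
      by_cases h1 : d = w
      · rw [h1, rw', rw0]
      by_cases h2 : d = v
      · rw [h2, rv', rv0]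
      rw [ed d (ne_of_mem_erase hd) h1 h2]
    rw [this, rc']
    omega
  refine ⟨τ', insert w (insert v U), ⟨hτ', ?_, ?_, ?_⟩, by omega⟩
  · intro d hd
    rw [mem_insert, mem_insert] at hd
    rcases hd with hd | hd | hd
    · rw [hd]; exact ⟨(hBU w hwB).2, rw'⟩
    · rw [hd]; exact ⟨(hBU v hvB).2, rv'⟩
    · have d1 : d ≠ c := fun h0 => hcU (h0 ▸ hd)
      have d2 : d ≠ w := fun h0 => (hBU w hwB).1 (h0 ▸ hd)
      have d3 : d ≠ v := fun h0 => (hBU v hvB).1 (h0 ▸ hd)
      rw [ed d d1 d2 d3]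
      exact h.used d hd
  · intro d hd
    rw [mem_insert, mem_insert, not_or, not_or] at hd
    by_cases d1 : d = c
    · subst d1
      have h1 := h.ch d hcU
      have h2 : (univ.filter (fun i => τ' i d ≠ σ i d)).card ≤ (univ.filter (fun i => τ i d ≠ σ i d)).card + 1 := by
        have : (univ.filter (fun i => τ' i d ≠ σ i d)) ⊆ insert m (univ.filter (fun i => τ i d ≠ σ i d)) := by
          intro i hi
          rw [mem_filter] at hi
          rw [mem_insert, mem_filter]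
          by_cases hi2 : i = m
          · exact Or.inl hi2
          · refine Or.inr ⟨mem_univ _, ?_⟩
            have h3 : colm τ' d i = τ i d := by rw [ec, Function.update_of_ne hi2]; rfl
            have h4 : τ' i d = τ i d := h3
            rw [← h4]; exact hi.2
        exact (card_le_card this).trans (card_insert_le _ _)
      rw [rc']
      omega
    · have h1 := ed d d1 hd.1 hd.2.1
      have h2 : (univ.filter (fun i => τ' i d ≠ σ i d)) = univ.filter (fun i => τ i d ≠ σ i d) := by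
        refine filter_congr (fun i _ => ?_)
        have : colm τ' d i = colm τ d i := by rw [h1]
        have h3 : τ' i d = τ i d := this
        rw [h3]
      rw [h2, h1]
      exact h.ch d hd.2.2
  · have h1 := h.cnt
    have h2 := card_insert_le w (insert v U)
    have h3 := card_insert_le v U
    omega

/-- [q6] induction on `tot τ`, starting with `St σ σ ∅`. -/
theorem exists_all : ∃ τ ∈ D.Ar, ∀ c, D.rk (colm τ c) = n := by
  obtain ⟨σ, hσ⟩ := D.exists_nice
  have key : ∀ (t : ℕ) (τ : Fin n → Equiv.Perm (Fin n)) (U : Finset (Fin n)), D.tot τ = t → D.St σ τ U →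
      ∃ τ ∈ D.Ar, ∀ c, D.rk (colm τ c) = n := by
    intro t
    induction t using Nat.strong_induction_on with
    | _ t ih =>
      intro τ U ht hs
      by_cases hall : ∀ c, D.rk (colm τ c) = n
      · exact ⟨τ, hs.mem, hall⟩
      · push Not at hall
        obtain ⟨c, hc⟩ := hall
        have hc' : D.rk (colm τ c) < n := lt_of_le_of_ne (D.rk_le _) hc
        obtain ⟨τ', U', hs', ht'⟩ := D.step hσ hs hc'
        exact ih (D.tot τ') (by omega) τ' U' rfl hs'
  refine key (D.tot σ) σ ∅ rfl ⟨hσ.mem, ?_, ?_, ?_⟩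
  · intro c hc
    exact absurd hc (notMem_empty c)
  · intro c _
    simp
  · simp

end Cd

end Pool.Agent.RGi
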